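import Pool.Agent.W2helper94.SH.Cyl
import Pool.Agent.Y631.TrModel

set_option autoImplicit false

/-!
# From circuits to covers by cylinder intersections
-/

open Finset Pool.Agent.Y631.Tr

namespace Pool.Agent.W2helper94.SH

/-- The circuit `C`, in which the gates of `G` may have arbitrary values (guesses), accepts the input `x`:
for some values of the gates, correct at all gates outside of `G`, the output is true. -/
def Accepts {ι : Type} (C : Net ι Unit Bool) (G : Finset (Fin C.size)) (x : ι → Bool) : Prop :=
  ∃ v : Fin C.size → Bool, (∀ g, g ∉ G → v g = C.op g (fun a => Sum.elim x v (C.src g a))) ∧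
    v (C.out ()) = true

/-- The Boolean function `F` has additive complexity at most `l`: its variables have weights in a finite
abelian group with at most `2 ^ l` elements, and the value of `F` depends only on the sum of the
weights of the true variables. -/
def AddLE (l : ℕ) {a : ℕ} (F : (Fin a → Bool) → Bool) : Prop :=
  ∃ (A : Type) (_ : AddCommGroup A) (_ : Fintype A) (c : Fin a → A), Fintype.card A ≤ 2 ^ l ∧
    ∀ u v : Fin a → Bool, (∑ i, if u i = true then c i else 0) = (∑ i, if v i = true then c i else 0) → F u = F v

section

variable {ι : Type} (C : Net ι Unit Bool) {A : Fin C.size → Type} [∀ g, AddCommGroup (A g)]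
  (c : ∀ g, Fin (C.arity g) → A g)

/-- the player who knows the value of a wire -/
def owner {k : ℕ} (Z : Finset (Fin C.size)) (player : Fin C.size → Fin (k + 1)) (ow : ι → Fin (k + 1))
    (g : Fin C.size) (a : Fin (C.arity g)) : Fin (k + 1) :=
  match C.src g a with
  | .inl i => ow i
  | .inr h => if h ∈ Z then 0 else player h

/-- the sum of the weights of the true wires of the player `j` -/
def part {k : ℕ} (Z : Finset (Fin C.size)) (player : Fin C.size → Fin (k + 1)) (ow : ι → Fin (k + 1))
    (g : Fin C.size) (j : Fin (k + 1)) (x : ι → Bool) (v : Fin C.size → Bool) : A g :=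
  ∑ a, if owner C Z player ow g a = j ∧ Sum.elim x v (C.src g a) = true then c g a else 0

/-- the player `j` agrees -/
def Agree {k : ℕ} {I : Type} (G Z : Finset (Fin C.size)) (player : Fin C.size → Fin (k + 1))
    (enc : (Fin (k + 1) → I → ZMod 2) → ι → Bool) (ow : ι → Fin (k + 1))
    (ζ : (g : {g // g ∈ Z}) → Bool × (Fin (k + 1) → A g.1)) (j : Fin (k + 1))
    (z : Fin (k + 1) → I → ZMod 2) : Prop :=
  ∃ v : Fin C.size → Bool,
    (∀ g : {g // g ∈ Z}, v g.1 = (ζ g).1) ∧
    (∀ g, g ∉ Z → player g = j → g ∉ G → v g = C.op g (fun a => Sum.elim (enc z) v (C.src g a))) ∧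
    (∀ g : {g // g ∈ Z}, part C c Z player ow g.1 j (enc z) v = (ζ g).2 j) ∧
    (∀ g : {g // g ∈ Z}, g.1 ∉ G → ∀ u : Fin (C.arity g.1) → Bool,
      (∑ a, if u a = true then c g.1 a else 0) = ∑ j, (ζ g).2 j → (ζ g).1 = C.op g.1 u) ∧
    (C.out () ∈ Z ∨ player (C.out ()) = j → v (C.out ()) = true)

lemma sum_part {k : ℕ} (Z : Finset (Fin C.size)) (player : Fin C.size → Fin (k + 1)) (ow : ι → Fin (k + 1))
    (g : Fin C.size) (x : ι → Bool) (v : Fin C.size → Bool) :
    ∑ j, part C c Z player ow g j x v = ∑ a, if Sum.elim x v (C.src g a) = true then c g a else 0 := by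
  unfold part
  rw [sum_comm]
  refine sum_congr rfl fun a _ => ?_
  by_cases h : Sum.elim x v (C.src g a) = true
  · simp only [h, and_true, if_true]
    rw [sum_ite_eq univ (owner C Z player ow g a)]
    simp
  · simp [h]

/-- **The cover.** -/
theorem net_cover [∀ g, Fintype (A g)] {k : ℕ} {I : Type} [Fintype I] [DecidableEq I]
    (G Z : Finset (Fin C.size)) (lam : Fin C.size → ℕ) (hA : ∀ g ∈ Z, Fintype.card (A g) ≤ 2 ^ lam g)
    (hop : ∀ g ∈ Z, ∀ u v : Fin (C.arity g) → Bool, (∑ i, if u i = true then c g i else 0) =
      (∑ i, if v i = true then c g i else 0) → C.op g u = C.op g v)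
    (player : Fin C.size → Fin (k + 1))
    (enc : (Fin (k + 1) → I → ZMod 2) → ι → Bool) (X : Fin (k + 1) → ι → Prop)
    (henc : ∀ j z x i, ¬ X j i → enc (Function.update z j x) i = enc z i)
    (hX : ∀ i, ∃ j, ¬ X j i)
    (hpl : ∀ h g, C.Joined h g → h ∉ Z → g ∉ Z → player h = player g)
    (hrd : ∀ g, g ∉ Z → ∀ a i, C.src g a = Sum.inl i → ¬ X (player g) i)
    (b : ZMod 2) (hf : ∀ z, Accepts C G (enc z) ↔ gip k z = b) :
    Fintype.card I ≤ (∑ g ∈ Z, (1 + (k + 1) * lam g) + 2) * 4 ^ k := by
  classical
  choose ow how using hX
  have hS : Fintype.card ((g : {g // g ∈ Z}) → Bool × (Fin (k + 1) → A g.1)) ≤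
      2 ^ (∑ g ∈ Z, (1 + (k + 1) * lam g)) := by
    rw [Fintype.card_pi, ← Finset.prod_pow_eq_pow_sum, ← Finset.prod_coe_sort Z (fun g => 2 ^ (1 + (k + 1) * lam g))]
    refine prod_le_prod' fun g _ => ?_
    have e1 : 2 ^ (1 + (k + 1) * lam g.1) = 2 * (2 ^ lam g.1) ^ (k + 1) := by
      rw [← pow_mul, pow_add, pow_one, mul_comm (k + 1)]
    rw [Fintype.card_prod, Fintype.card_bool, Fintype.card_fun, Fintype.card_fin, e1]
    exact Nat.mul_le_mul_left _ (Nat.pow_le_pow_left (hA g.1 g.2) _)
  refine cover k (∑ g ∈ Z, (1 + (k + 1) * lam g)) b hS (fun ζ j z => Agree C c G Z player enc ow ζ j z) ?_ ?_ ?_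
  · -- independence
    intro ζ j z x
    have key : ∀ g, g ∉ Z → player g = j → ∀ (v : Fin C.size → Bool),
        (fun a => Sum.elim (enc (Function.update z j x)) v (C.src g a)) =
          (fun a => Sum.elim (enc z) v (C.src g a)) := by
      intro g hg hj v
      funext a
      cases hs : C.src g a with
      | inl i =>
        have := hrd g hg a i hs
        rw [hj] at this
        exact henc j z x i this
      | inr h => rfl
    have key2 : ∀ g v, part C c Z player ow g j (enc (Function.update z j x)) v = part C c Z player ow g j (enc z) v := by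
      intro g v
      unfold part
      refine sum_congr rfl fun a _ => ?_
      by_cases h : owner C Z player ow g a = j
      · have e : Sum.elim (enc (Function.update z j x)) v (C.src g a) = Sum.elim (enc z) v (C.src g a) := by
          unfold owner at h
          cases hs : C.src g a with
          | inl i =>
            rw [hs] at h
            have h' : ow i = j := h
            have := how i
            rw [h'] at this
            exact henc j z x i this
          | inr h => rfl
        rw [e]
      · simp [h]
    unfold Agree
    constructor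
    · rintro ⟨v, h1, h2, h3, h4, h5⟩
      refine ⟨v, h1, ?_, ?_, h4, h5⟩
      · intro g hg hj hG
        rw [← key g hg hj v]
        exact h2 g hg hj hG
      · intro g
        rw [← key2]
        exact h3 g
    · rintro ⟨v, h1, h2, h3, h4, h5⟩
      refine ⟨v, h1, ?_, ?_, h4, h5⟩
      · intro g hg hj hG
        rw [key g hg hj v]
        exact h2 g hg hj hG
      · intro g
        rw [key2]
        exact h3 g
  · -- soundness
    intro ζ z hz
    rw [← hf z]
    choose v h1 h2 h3 h4 h5 using hz
    refine ⟨fun g => v (player g) g, ?_, ?_⟩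
    · intro g hG
      by_cases hg : g ∈ Z
      · have e1 : v (player g) g = (ζ ⟨g, hg⟩).1 := h1 (player g) ⟨g, hg⟩
        show v (player g) g = _
        rw [e1]
        refine h4 0 ⟨g, hg⟩ hG _ ?_
        show (∑ a, if Sum.elim (enc z) (fun g => v (player g) g) (C.src g a) = true then c g a else 0) = _
        rw [← sum_part C c Z player ow g (enc z) (fun g => v (player g) g)]
        refine sum_congr rfl fun j _ => ?_
        rw [← h3 j ⟨g, hg⟩]
        unfold part
        refine sum_congr rfl fun a _ => ?_
        by_cases h : owner C Z player ow g a = j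
        · have e : Sum.elim (enc z) (fun g => v (player g) g) (C.src g a) = Sum.elim (enc z) (v j) (C.src g a) := by
            unfold owner at h
            cases hs : C.src g a with
            | inl i => rfl
            | inr h' =>
              rw [hs] at h
              by_cases hh : h' ∈ Z
              · exact (h1 (player h') ⟨h', hh⟩).trans (h1 j ⟨h', hh⟩).symm
              · have h'' : (if h' ∈ Z then 0 else player h') = j := h
                rw [if_neg hh] at h''
                show v (player h') h' = v j h'
                rw [h'']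
          rw [e]
        · simp [h]
      · show v (player g) g = _
        rw [h2 (player g) g hg rfl hG]
        congr 1
        funext a
        cases hs : C.src g a with
        | inl i => rfl
        | inr h =>
          show v (player g) h = v (player h) h
          by_cases hh : h ∈ Z
          · exact (h1 (player g) ⟨h, hh⟩).trans (h1 (player h) ⟨h, hh⟩).symm
          · rw [hpl h g ⟨a, hs⟩ hh hg]
    · exact h5 _ (Or.inr rfl)
  · -- completeness
    intro z hz
    rw [← hf z] at hz
    obtain ⟨v, hv, ho⟩ := hz
    refine ⟨fun g => (v g.1, fun j => part C c Z player ow g.1 j (enc z) v), fun j => ⟨v, ?_, ?_, ?_, ?_, ?_⟩⟩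
    · intro g
      rfl
    · intro g hg _ hG
      exact hv g hG
    · intro g
      rfl
    · intro g hG u hu
      show v g.1 = _
      rw [hv g.1 hG]
      refine hop g.1 g.2 _ _ ?_
      rw [hu]
      show _ = ∑ j, part C c Z player ow g.1 j (enc z) v
      rw [sum_part]
    · intro _
      exact ho

end

end Pool.Agent.W2helper94.SH
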