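import Pool.Agent.W2helper94.SH.Disc

set_option autoImplicit false

/-!
# Covers of the generalised inner product by cylinder intersections
-/

open Finset

namespace Pool.Agent.W2helper94.SH

variable {I : Type} [Fintype I] [DecidableEq I]

/-- the generalised inner product of `k + 1` vectors -/
def gip (k : ℕ) (z : Fin (k + 1) → I → ZMod 2) : ZMod 2 := ∑ i, ∏ j, z j i

lemma half_pow (k : ℕ) : (1 - (1 / 2 : ℝ) ^ k) ^ 2 ^ k ≤ 1 / 2 := by
  rcases Nat.eq_zero_or_pos k with rfl | hk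
  · norm_num
  have h0 : (0 : ℝ) ≤ 1 - (1 / 2) ^ k := by
    have : (1 / 2 : ℝ) ^ k ≤ 1 := pow_le_one₀ (by norm_num) (by norm_num)
    linarith
  have h1 : 1 - (1 / 2 : ℝ) ^ k ≤ Real.exp (-(1 / 2) ^ k) := by
    have := Real.add_one_le_exp (-(1 / 2 : ℝ) ^ k)
    linarith
  calc (1 - (1 / 2 : ℝ) ^ k) ^ 2 ^ k ≤ (Real.exp (-(1 / 2) ^ k)) ^ 2 ^ k := pow_le_pow_left₀ h0 h1 _
    _ = Real.exp (-1) := by
        rw [← Real.exp_nat_mul]
        congr 1
        push_cast
        rw [mul_neg, ← mul_pow]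
        norm_num
    _ ≤ 1 / 2 := by
        rw [Real.exp_neg, one_div]
        apply inv_anti₀ (by norm_num)
        have := Real.add_one_le_exp (1 : ℝ)
        linarith

lemma bd_one_pow (k : ℕ) : (bd k (fun _ : I => (1 : ZMod 2))) ^ 2 ^ k ≤ (1 / 2 : ℝ) ^ Fintype.card I := by
  unfold bd
  have h : ¬ ((1 : ZMod 2) = 0) := by decide
  simp only [if_neg h]
  rw [prod_const, card_univ, ← pow_mul, mul_comm, pow_mul]
  refine pow_le_pow_left₀ ?_ (half_pow k) _
  apply pow_nonneg
  have : (1 / 2 : ℝ) ^ k ≤ 1 := pow_le_one₀ (by norm_num) (by norm_num)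
  linarith

/-- from the discrepancy bound to a bound for the correlation -/
lemma T_small (k : ℕ) (φ : Fin (k + 1) → (Fin (k + 1) → I → ZMod 2) → ℝ)
    (h1 : ∀ j z, |φ j z| ≤ 1) (hi : Indep k φ) :
    |T k (fun _ => 1) φ| ^ 4 ^ k ≤
      ((Fintype.card (I → ZMod 2) : ℝ) ^ (k + 1)) ^ 4 ^ k * (1 / 2) ^ Fintype.card I := by
  have h2 := disc k (fun _ => 1) φ h1 hi
  have e : (4 : ℕ) ^ k = 2 ^ k * 2 ^ k := by
    rw [← mul_pow]
    norm_num
  rw [e, pow_mul, pow_mul]
  calc (|T k (fun _ => 1) φ| ^ 2 ^ k) ^ 2 ^ k ≤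
        (((Fintype.card (I → ZMod 2) : ℝ) ^ (k + 1)) ^ 2 ^ k * bd k (fun _ : I => (1 : ZMod 2))) ^ 2 ^ k :=
        pow_le_pow_left₀ (pow_nonneg (abs_nonneg _) _) h2 _
    _ ≤ _ := by
        rw [mul_pow]
        exact mul_le_mul_of_nonneg_left (bd_one_pow k) (by positivity)

open Classical in
/-- **Cover.** If the inputs `z` with `gip z = b` are covered by `2 ^ a` cylinder intersections on which
`gip` is equal to `b`, then the vectors have at most `(a + 2) * 4 ^ k` entries. -/
theorem cover (k a : ℕ) (b : ZMod 2) {S : Type} [Fintype S] (hS : Fintype.card S ≤ 2 ^ a)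
    (P : S → Fin (k + 1) → (Fin (k + 1) → I → ZMod 2) → Prop)
    (hind : ∀ s j z x, P s j (Function.update z j x) ↔ P s j z)
    (hP : ∀ s z, (∀ j, P s j z) → gip k z = b)
    (hcov : ∀ z, gip k z = b → ∃ s, ∀ j, P s j z) : Fintype.card I ≤ (a + 2) * 4 ^ k := by
  by_contra hcon
  push Not at hcon
  have h4 : 0 < 4 ^ k := by positivity
  obtain ⟨M, hM⟩ : ∃ M : ℝ, M = (Fintype.card (I → ZMod 2) : ℝ) ^ (k + 1) := ⟨_, rfl⟩
  have hM0 : 0 < M := by
    rw [hM]
    have : 0 < Fintype.card (I → ZMod 2) := Fintype.card_pos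
    positivity
  have hMc : ((univ : Finset (Fin (k + 1) → I → ZMod 2)).card : ℝ) = M := by
    rw [hM, card_univ, Fintype.card_fun, Fintype.card_fin]
    push_cast
    rfl
  have hsmall : ∀ φ : Fin (k + 1) → (Fin (k + 1) → I → ZMod 2) → ℝ,
      (∀ j z, |φ j z| ≤ 1) → Indep k φ → |T k (fun _ => 1) φ| < M / 2 ^ (a + 2) := by
    intro φ h1 hi
    have h2 := T_small k φ h1 hi
    rw [← hM] at h2
    have h3 : |T k (fun _ => 1) φ| ^ 4 ^ k < (M / 2 ^ (a + 2)) ^ 4 ^ k := by
      refine lt_of_le_of_lt h2 ?_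
      have h5 : (2 : ℝ) ^ ((a + 2) * 4 ^ k) < 2 ^ Fintype.card I := pow_lt_pow_right₀ (by norm_num) hcon
      have h6 : ((2 : ℝ) ^ Fintype.card I)⁻¹ < ((2 : ℝ) ^ ((a + 2) * 4 ^ k))⁻¹ :=
        inv_strictAnti₀ (by positivity) h5
      have h7 : 0 < M ^ 4 ^ k := pow_pos hM0 _
      have h8 : (M / 2 ^ (a + 2)) ^ 4 ^ k = M ^ 4 ^ k * ((2 : ℝ) ^ ((a + 2) * 4 ^ k))⁻¹ := by
        rw [div_pow, div_eq_mul_inv, ← pow_mul]
      rw [h8, one_div, inv_pow]
      exact mul_lt_mul_of_pos_left h6 h7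
    exact lt_of_pow_lt_pow_left₀ _ (by positivity) h3
  have hTs : ∀ Q : Fin (k + 1) → (Fin (k + 1) → I → ZMod 2) → Prop,
      (∀ j z x, Q j (Function.update z j x) ↔ Q j z) → (∀ z, (∀ j, Q j z) → gip k z = b) →
      ((univ.filter (fun z => ∀ j, Q j z)).card : ℝ) < M / 2 ^ (a + 2) := by
    intro Q hQ hQb
    have h1 := hsmall (fun j z => if Q j z then 1 else 0) (by
      intro j z
      by_cases h : Q j z
      · simp [h]
      · simp [h]) (by
      intro j z x
      show (if Q j (Function.update z j x) then (1 : ℝ) else 0) = if Q j z then 1 else 0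
      by_cases h : Q j z
      · rw [if_pos h, if_pos ((hQ j z x).2 h)]
      · rw [if_neg h, if_neg fun h' => h ((hQ j z x).1 h')])
    have h2 : T k (fun _ => 1) (fun j z => if Q j z then (1 : ℝ) else 0) =
        sg b * ((univ.filter (fun z => ∀ j, Q j z)).card : ℝ) := by
      unfold T
      rw [card_filter, Nat.cast_sum, mul_sum]
      refine sum_congr rfl fun z _ => ?_
      by_cases h3 : ∀ j, Q j z
      · have h5 := hQb z h3
        unfold gip at h5
        simp only [one_mul, h5, h3, if_true, prod_const_one, implies_true, Nat.cast_one]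
      · rw [if_neg h3]
        push Not at h3
        obtain ⟨j, hj⟩ := h3
        rw [prod_eq_zero (mem_univ j) (if_neg hj)]
        simp
    rw [h2, abs_mul, abs_sg, one_mul, abs_of_nonneg (Nat.cast_nonneg _)] at h1
    exact h1
  -- the number of the inputs with value `b`
  have hB : M / 4 ≤ ((univ.filter (fun z : Fin (k + 1) → I → ZMod 2 => gip k z = b)).card : ℝ) := by
    have h1 := hsmall (fun _ _ => 1) (by simp) (fun _ _ _ => rfl)
    have h2 : T k (fun _ : I => (1 : ZMod 2)) (fun _ _ => 1) =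
        ∑ z : Fin (k + 1) → I → ZMod 2, sg (gip k z) := by
      unfold T gip
      simp
    have h3 : ∀ z : Fin (k + 1) → I → ZMod 2, sg b * sg (gip k z) = 2 * (if gip k z = b then 1 else 0) - 1 := by
      intro z
      have hne : ¬ ((1 : ZMod 2) = 0) := by decide
      have hne' : ¬ ((0 : ZMod 2) = 1) := by decide
      rcases zcases b with rfl | rfl <;> rcases zcases (gip k z) with h | h <;> rw [h] <;> simp [hne, hne'] <;> norm_num
    have h5 : sg b * T k (fun _ : I => (1 : ZMod 2)) (fun _ _ => 1) =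
        2 * ((univ.filter (fun z : Fin (k + 1) → I → ZMod 2 => gip k z = b)).card : ℝ) - M := by
      rw [h2, mul_sum, sum_congr rfl fun z _ => h3 z, sum_sub_distrib, ← mul_sum, sum_const, nsmul_eq_mul,
        mul_one, hMc, card_filter]
      push_cast
      rfl
    have h6 : |sg b * T k (fun _ : I => (1 : ZMod 2)) (fun _ _ => (1 : ℝ))| < M / 2 ^ (a + 2) := by
      rw [abs_mul, abs_sg, one_mul]
      exact h1
    have h7 : M / 2 ^ (a + 2) ≤ M / 2 := by
      apply div_le_div_of_nonneg_left hM0.le (by norm_num)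
      calc (2 : ℝ) = 2 ^ 1 := (pow_one _).symm
        _ ≤ 2 ^ (a + 2) := pow_le_pow_right₀ (by norm_num) (by omega)
    rw [h5] at h6
    have h8 := (abs_lt.1 h6).1
    linarith
  have hsub : (univ.filter (fun z : Fin (k + 1) → I → ZMod 2 => gip k z = b)) ⊆
      univ.biUnion (fun s => univ.filter (fun z => ∀ j, P s j z)) := by
    intro z hz
    rw [mem_filter] at hz
    obtain ⟨s, hs⟩ := hcov z hz.2
    rw [mem_biUnion]
    exact ⟨s, mem_univ _, by rw [mem_filter]; exact ⟨mem_univ _, hs⟩⟩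
  have h9 : ((univ.filter (fun z : Fin (k + 1) → I → ZMod 2 => gip k z = b)).card : ℝ) ≤
      ∑ s, ((univ.filter (fun z => ∀ j, P s j z)).card : ℝ) := by
    exact_mod_cast (card_le_card hsub).trans card_biUnion_le
  by_cases hne : Nonempty S
  · have h10 : ∑ s, ((univ.filter (fun z => ∀ j, P s j z)).card : ℝ) < ∑ _s : S, M / 2 ^ (a + 2) :=
      sum_lt_sum_of_nonempty univ_nonempty fun s _ => hTs (P s) (hind s) (hP s)
    rw [sum_const, card_univ, nsmul_eq_mul] at h10
    have h11 : (Fintype.card S : ℝ) * (M / 2 ^ (a + 2)) ≤ 2 ^ a * (M / 2 ^ (a + 2)) :=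
      mul_le_mul_of_nonneg_right (by exact_mod_cast hS) (by positivity)
    have h12 : (2 : ℝ) ^ a * (M / 2 ^ (a + 2)) = M / 4 := by
      rw [pow_add]
      field_simp
      norm_num
    linarith
  · have h10 : ∑ s, ((univ.filter (fun z => ∀ j, P s j z)).card : ℝ) = 0 := by
      apply sum_eq_zero
      intro s _
      exact absurd ⟨s⟩ hne
    linarith

end Pool.Agent.W2helper94.SH
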