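import Mathlib

set_option autoImplicit false

/-!
# The discrepancy of the generalised inner product under cylinder intersections

(Babai, Nisan and Szegedy.)
-/

open Finset

namespace Pool.Agent.W2helper94.SH

/-- the sign `(-1) ^ c` -/
def sg (c : ZMod 2) : ℝ := if c = 0 then 1 else -1

lemma zcases (c : ZMod 2) : c = 0 ∨ c = 1 := by
  revert c; decide

@[simp] lemma sg_zero : sg 0 = 1 := by simp [sg]

@[simp] lemma sg_one : sg 1 = -1 := by
  unfold sg
  rw [if_neg (by decide)]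

lemma sg_add (a b : ZMod 2) : sg (a + b) = sg a * sg b := by
  have h : (1 + 1 : ZMod 2) = 0 := by decide
  rcases zcases a with rfl | rfl <;> rcases zcases b with rfl | rfl <;> simp [h]

lemma abs_sg (a : ZMod 2) : |sg a| = 1 := by
  rcases zcases a with rfl | rfl <;> simp

lemma sg_sum {I : Type} (s : Finset I) (f : I → ZMod 2) : sg (∑ i ∈ s, f i) = ∏ i ∈ s, sg (f i) := by
  classical
  induction s using Finset.induction_on with
  | empty => simp
  | insert a s ha ih => rw [sum_insert ha, prod_insert ha, sg_add, ih]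

variable {I : Type} [Fintype I] [DecidableEq I]

/-- the correlation of the generalised inner product with a product of functions -/
noncomputable def T (k : ℕ) (c : I → ZMod 2) (φ : Fin (k + 1) → (Fin (k + 1) → I → ZMod 2) → ℝ) : ℝ :=
  ∑ z : Fin (k + 1) → I → ZMod 2, sg (∑ i, c i * ∏ j, z j i) * ∏ j, φ j z

/-- the function `φ j` does not depend on the argument number `j` -/
def Indep (k : ℕ) (φ : Fin (k + 1) → (Fin (k + 1) → I → ZMod 2) → ℝ) : Prop :=
  ∀ j z x, φ j (Function.update z j x) = φ j z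

/-- the bound -/
noncomputable def bd (k : ℕ) (c : I → ZMod 2) : ℝ := ∏ i, if c i = 0 then (1 : ℝ) else 1 - (1 / 2) ^ k

lemma bd_nonneg (k : ℕ) (c : I → ZMod 2) : 0 ≤ bd k c := by
  unfold bd
  refine prod_nonneg fun i _ => ?_
  split_ifs
  · norm_num
  · have : (1 / 2 : ℝ) ^ k ≤ 1 := pow_le_one₀ (by norm_num) (by norm_num)
    linarith

lemma card_X : (Fintype.card (I → ZMod 2) : ℝ) = 2 ^ Fintype.card I := by
  rw [Fintype.card_fun, ZMod.card]
  push_cast
  rfl

lemma bd_mean (k : ℕ) (c : I → ZMod 2) :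
    ∑ w : I → ZMod 2, bd k (fun i => c i * w i) = Fintype.card (I → ZMod 2) * bd (k + 1) c := by
  unfold bd
  have h := Finset.prod_univ_sum (fun _ : I => (univ : Finset (ZMod 2)))
    (fun (i : I) (y : ZMod 2) => if c i * y = 0 then (1 : ℝ) else 1 - (1 / 2) ^ k)
  rw [Fintype.piFinset_univ] at h
  rw [← h]
  have h2 : ∀ i : I, ∑ y : ZMod 2, (if c i * y = 0 then (1 : ℝ) else 1 - (1 / 2) ^ k) =
      2 * (if c i = 0 then (1 : ℝ) else 1 - (1 / 2) ^ (k + 1)) := by
    intro i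
    have e : ∀ f : ZMod 2 → ℝ, ∑ y : ZMod 2, f y = f 0 + f 1 := fun f => Fin.sum_univ_two f
    rw [e]
    rcases zcases (c i) with h1 | h1 <;> rw [h1]
    · simp; norm_num
    · have h3 : ¬ ((1 : ZMod 2) = 0) := by decide
      simp only [mul_zero, mul_one, if_true, if_neg h3]
      rw [pow_succ]
      ring
  rw [Finset.prod_congr rfl fun i _ => h2 i, prod_mul_distrib, card_X, prod_const, card_univ]

lemma bd_mean2 (k : ℕ) (c : I → ZMod 2) :
    ∑ x : I → ZMod 2, ∑ y : I → ZMod 2, bd k (fun i => c i * (x i + y i)) =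
      (Fintype.card (I → ZMod 2) : ℝ) ^ 2 * bd (k + 1) c := by
  have h : ∀ x : I → ZMod 2, ∑ y : I → ZMod 2, bd k (fun i => c i * (x i + y i)) =
      ∑ w : I → ZMod 2, bd k (fun i => c i * w i) := by
    intro x
    exact Fintype.sum_equiv (Equiv.addLeft x) _ _ (fun y => rfl)
  rw [Finset.sum_congr rfl fun x _ => h x, bd_mean, sum_const, card_univ, nsmul_eq_mul]
  ring

lemma T_zero (c : I → ZMod 2) (φ : Fin (0 + 1) → (Fin (0 + 1) → I → ZMod 2) → ℝ)
    (h1 : ∀ j z, |φ j z| ≤ 1) (hi : Indep 0 φ) :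
    |T 0 c φ| ≤ Fintype.card (I → ZMod 2) * bd 0 c := by
  haveI : Subsingleton (Fin (0 + 1)) := inferInstanceAs (Subsingleton (Fin 1))
  letI : Unique (Fin (0 + 1)) := inferInstanceAs (Unique (Fin 1))
  have hc : ∀ z, φ 0 z = φ 0 0 := by
    intro z
    rw [← hi 0 z 0]
    congr 1
    funext j
    rw [Subsingleton.elim j 0, Function.update_self]
    rfl
  have e : T 0 c φ = φ 0 0 * ∑ x : I → ZMod 2, sg (∑ i, c i * x i) := by
    unfold T
    rw [mul_sum]
    refine Fintype.sum_equiv (Equiv.funUnique (Fin (0 + 1)) (I → ZMod 2)) _ _ (fun z => ?_)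
    rw [Fintype.prod_unique (fun j => φ j z)]
    have e3 : (default : Fin (0 + 1)) = 0 := rfl
    rw [e3, hc z, mul_comm]
    congr 2
    refine sum_congr rfl fun i _ => ?_
    rw [Fintype.prod_unique (fun j => z j i)]
    rfl
  have e2 : ∑ x : I → ZMod 2, sg (∑ i, c i * x i) = Fintype.card (I → ZMod 2) * bd 0 c := by
    have h := Finset.prod_univ_sum (fun _ : I => (univ : Finset (ZMod 2)))
      (fun (i : I) (y : ZMod 2) => sg (c i * y))
    rw [Fintype.piFinset_univ] at h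
    simp only [sg_sum]
    rw [← h]
    unfold bd
    have h2 : ∀ i : I, ∑ y : ZMod 2, sg (c i * y) = 2 * (if c i = 0 then (1 : ℝ) else 1 - (1 / 2) ^ 0) := by
      intro i
      have e : ∀ f : ZMod 2 → ℝ, ∑ y : ZMod 2, f y = f 0 + f 1 := fun f => Fin.sum_univ_two f
      rw [e]
      rcases zcases (c i) with h1 | h1 <;> rw [h1]
      · simp; norm_num
      · simp
    rw [Finset.prod_congr rfl fun i _ => h2 i, prod_mul_distrib, card_X, prod_const, card_univ]
  rw [e, e2, abs_mul, abs_of_nonneg (mul_nonneg (Nat.cast_nonneg _) (bd_nonneg 0 c))]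
  calc |φ 0 0| * _ ≤ 1 * ((Fintype.card (I → ZMod 2) : ℝ) * bd 0 c) :=
        mul_le_mul_of_nonneg_right (h1 0 0) (mul_nonneg (Nat.cast_nonneg _) (bd_nonneg 0 c))
    _ = _ := one_mul _

lemma update_cons {k : ℕ} (x : I → ZMod 2) (z : Fin (k + 1) → I → ZMod 2) (j : Fin (k + 1)) (y : I → ZMod 2) :
    (Fin.cons x (Function.update z j y) : Fin (k + 1 + 1) → I → ZMod 2) =
      Function.update (Fin.cons x z) j.succ y := by
  rw [Fin.cons_update]

lemma T_succ (k : ℕ) (c : I → ZMod 2) (φ : Fin (k + 1 + 1) → (Fin (k + 1 + 1) → I → ZMod 2) → ℝ)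
    (h1 : ∀ j z, |φ j z| ≤ 1) (hi : Indep (k + 1) φ) :
    T (k + 1) c φ ^ 2 ≤ (Fintype.card (I → ZMod 2) : ℝ) ^ (k + 1) * ∑ x : I → ZMod 2, ∑ y : I → ZMod 2,
      |T k (fun i => c i * (x i + y i)) (fun j z => φ j.succ (Fin.cons x z) * φ j.succ (Fin.cons y z))| := by
  set u : (Fin (k + 1) → I → ZMod 2) → ℝ := fun z => φ 0 (Fin.cons 0 z) with hu
  set h : (I → ZMod 2) → (Fin (k + 1) → I → ZMod 2) → ℝ := fun x z =>
    sg (∑ i, c i * (x i * ∏ j, z j i)) * ∏ j : Fin (k + 1), φ j.succ (Fin.cons x z) with hh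
  have e1 : T (k + 1) c φ = ∑ z : Fin (k + 1) → I → ZMod 2, u z * ∑ x, h x z := by
    unfold T
    have e := Fintype.sum_equiv (Fin.consEquiv (fun _ : Fin (k + 1 + 1) => I → ZMod 2)).symm
      (fun z => sg (∑ i, c i * ∏ j, z j i) * ∏ j, φ j z)
      (fun p => u p.2 * h p.1 p.2) (by
        intro z
        obtain ⟨p, rfl⟩ := (Fin.consEquiv (fun _ : Fin (k + 1 + 1) => I → ZMod 2)).surjective z
        rw [Equiv.symm_apply_apply]
        obtain ⟨x, z⟩ := p
        have e0 : (Fin.consEquiv (fun _ : Fin (k + 1 + 1) => I → ZMod 2)) (x, z) = Fin.cons x z := rfl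
        rw [e0, Fin.prod_univ_succ]
        simp only [Fin.prod_univ_succ (fun j : Fin (k + 1 + 1) => (Fin.cons x z : Fin (k + 1 + 1) → I → ZMod 2) j _),
          Fin.cons_zero, Fin.cons_succ, hu, hh]
        have e2 : φ 0 (Fin.cons x z) = φ 0 (Fin.cons 0 z) := by
          rw [← hi 0 (Fin.cons x z) 0, Fin.update_cons_zero]
        rw [e2]
        ring)
    rw [e, Fintype.sum_prod_type, sum_comm]
    refine sum_congr rfl fun z _ => ?_
    rw [mul_sum]
  have e2 : ∑ z : Fin (k + 1) → I → ZMod 2, u z ^ 2 ≤ (Fintype.card (I → ZMod 2) : ℝ) ^ (k + 1) := by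
    calc ∑ z : Fin (k + 1) → I → ZMod 2, u z ^ 2 ≤ ∑ z : Fin (k + 1) → I → ZMod 2, (1 : ℝ) := by
          refine sum_le_sum fun z _ => ?_
          rw [← sq_abs]
          exact pow_le_one₀ (abs_nonneg _) (h1 0 _)
      _ = _ := by
          rw [sum_const, card_univ, nsmul_eq_mul, mul_one, Fintype.card_fun, Fintype.card_fin]
          push_cast
          rfl
  have e3 : ∑ z : Fin (k + 1) → I → ZMod 2, (∑ x, h x z) ^ 2 = ∑ x : I → ZMod 2, ∑ y : I → ZMod 2,
      T k (fun i => c i * (x i + y i)) (fun j z => φ j.succ (Fin.cons x z) * φ j.succ (Fin.cons y z)) := by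
    have e4 : ∀ z, (∑ x, h x z) ^ 2 = ∑ x, ∑ y, h x z * h y z := by
      intro z
      rw [sq, sum_mul_sum]
    rw [sum_congr rfl fun z _ => e4 z, sum_comm]
    refine sum_congr rfl fun x _ => ?_
    rw [sum_comm]
    refine sum_congr rfl fun y _ => ?_
    unfold T
    refine sum_congr rfl fun z _ => ?_
    simp only [hh]
    rw [prod_mul_distrib]
    have e5 : sg (∑ i, c i * (x i + y i) * ∏ j, z j i) =
        sg (∑ i, c i * (x i * ∏ j, z j i)) * sg (∑ i, c i * (y i * ∏ j, z j i)) := by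
      rw [← sg_add, ← sum_add_distrib]
      congr 1
      refine sum_congr rfl fun i _ => ?_
      ring
    rw [e5]
    ring
  calc T (k + 1) c φ ^ 2 = (∑ z : Fin (k + 1) → I → ZMod 2, u z * ∑ x, h x z) ^ 2 := by rw [e1]
    _ ≤ (∑ z : Fin (k + 1) → I → ZMod 2, u z ^ 2) * ∑ z : Fin (k + 1) → I → ZMod 2, (∑ x, h x z) ^ 2 :=
        sum_mul_sq_le_sq_mul_sq _ _ _
    _ ≤ (Fintype.card (I → ZMod 2) : ℝ) ^ (k + 1) * ∑ z : Fin (k + 1) → I → ZMod 2, (∑ x, h x z) ^ 2 :=
        mul_le_mul_of_nonneg_right e2 (sum_nonneg fun z _ => sq_nonneg _)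
    _ ≤ _ := by
        rw [e3]
        refine mul_le_mul_of_nonneg_left ?_ (by positivity)
        exact sum_le_sum fun x _ => sum_le_sum fun y _ => le_abs_self _

/-- **The discrepancy bound.** -/
theorem disc (k : ℕ) : ∀ (c : I → ZMod 2) (φ : Fin (k + 1) → (Fin (k + 1) → I → ZMod 2) → ℝ),
    (∀ j z, |φ j z| ≤ 1) → Indep k φ →
    |T k c φ| ^ 2 ^ k ≤ ((Fintype.card (I → ZMod 2) : ℝ) ^ (k + 1)) ^ 2 ^ k * bd k c := by
  induction k with
  | zero =>
    intro c φ h1 hi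
    have := T_zero c φ h1 hi
    simpa using this
  | succ k ih =>
    intro c φ h1 hi
    obtain ⟨N, hN⟩ : ∃ N : ℝ, N = (Fintype.card (I → ZMod 2) : ℝ) := ⟨_, rfl⟩
    have hN0 : 0 ≤ N := by rw [hN]; exact Nat.cast_nonneg _
    have h2 := T_succ k c φ h1 hi
    rw [← hN] at h2 ⊢
    obtain ⟨A, hA⟩ : ∃ A : (I → ZMod 2) × (I → ZMod 2) → ℝ, A = fun p =>
      |T k (fun i => c i * (p.1 i + p.2 i)) (fun j z => φ j.succ (Fin.cons p.1 z) * φ j.succ (Fin.cons p.2 z))| := ⟨_, rfl⟩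
    have hA0 : ∀ p, 0 ≤ A p := fun p => by rw [hA]; exact abs_nonneg _
    have h3 : T (k + 1) c φ ^ 2 ≤ N ^ (k + 1) * ∑ p, A p := by
      rw [Fintype.sum_prod_type, hA]
      exact h2
    obtain ⟨n, hn⟩ : ∃ n, 2 ^ k = n + 1 := ⟨2 ^ k - 1, by have := Nat.one_le_two_pow (n := k); omega⟩
    have hcard : ((univ : Finset ((I → ZMod 2) × (I → ZMod 2))).card : ℝ) = N ^ 2 := by
      rw [card_univ, Fintype.card_prod, hN]
      push_cast
      ring
    have h4 : (∑ p, A p) ^ 2 ^ k ≤ (N ^ 2) ^ n * ∑ p, A p ^ 2 ^ k := by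
      rw [hn, ← hcard]
      exact pow_sum_le_card_mul_sum_pow (fun p _ => hA0 p) n
    have h5 : ∑ p, A p ^ 2 ^ k ≤ (N ^ (k + 1)) ^ 2 ^ k * (N ^ 2 * bd (k + 1) c) := by
      rw [hN, ← bd_mean2, ← hN, mul_sum, Fintype.sum_prod_type]
      refine sum_le_sum fun x _ => ?_
      rw [mul_sum]
      refine sum_le_sum fun y _ => ?_
      rw [hA, hN]
      refine ih _ _ ?_ ?_
      · intro j z
        rw [abs_mul]
        exact mul_le_one₀ (h1 _ _) (abs_nonneg _) (h1 _ _)
      · intro j z w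
        simp only
        rw [update_cons, update_cons, hi, hi]
    calc |T (k + 1) c φ| ^ 2 ^ (k + 1) = (T (k + 1) c φ ^ 2) ^ 2 ^ k := by
          rw [pow_succ 2 k, mul_comm (2 ^ k) 2, pow_mul, sq_abs]
      _ ≤ (N ^ (k + 1) * ∑ p, A p) ^ 2 ^ k := pow_le_pow_left₀ (sq_nonneg _) h3 _
      _ = (N ^ (k + 1)) ^ 2 ^ k * (∑ p, A p) ^ 2 ^ k := mul_pow _ _ _
      _ ≤ (N ^ (k + 1)) ^ 2 ^ k * ((N ^ 2) ^ n * ((N ^ (k + 1)) ^ 2 ^ k * (N ^ 2 * bd (k + 1) c))) := by
          refine mul_le_mul_of_nonneg_left (h4.trans ?_) (by positivity)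
          exact mul_le_mul_of_nonneg_left h5 (by positivity)
      _ = (N ^ (k + 1)) ^ 2 ^ k * (N ^ (k + 1)) ^ 2 ^ k * ((N ^ 2) ^ (n + 1)) * bd (k + 1) c := by ring
      _ = (N ^ (k + 1 + 1)) ^ 2 ^ (k + 1) * bd (k + 1) c := by
          rw [← hn]
          congr 1
          rw [← pow_mul, ← pow_mul, ← pow_mul, ← pow_add, ← pow_add]
          congr 1
          rw [pow_succ]
          ring

end Pool.Agent.W2helper94.SH
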