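import Pool.Agent.W2helper94.SH.Cyl

set_option autoImplicit false

/-!
# The explicit function: the generalised inner product of the words of a sequence
-/

open Finset

namespace Pool.Agent.W2helper94.SH

/-- the symbol at the position `p` is a letter (its value is the second bit) -/
def IsLetter {m : ℕ} (σ : Fin m → Bool × Bool) (p : Fin m) : Prop := (σ p).1 = true

/-- the symbol at the position `p` is a separator -/
def IsSep {m : ℕ} (σ : Fin m → Bool × Bool) (p : Fin m) : Prop := (σ p).1 = false ∧ (σ p).2 = true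

open Classical in
/-- the number of the separators before the position `p`, that is, the number of the word of `p` -/
noncomputable def wordIdx {m : ℕ} (σ : Fin m → Bool × Bool) (p : Fin m) : ℕ :=
  (univ.filter (fun q => q < p ∧ IsSep σ q)).card

open Classical in
/-- the number of the letters before the position `p` in the same word -/
noncomputable def letterIdx {m : ℕ} (σ : Fin m → Bool × Bool) (p : Fin m) : ℕ :=
  (univ.filter (fun q => q < p ∧ IsLetter σ q ∧ wordIdx σ q = wordIdx σ p)).card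

open Classical in
/-- the number of the words -/
noncomputable def numWords {m : ℕ} (σ : Fin m → Bool × Bool) : ℕ := (univ.filter (fun q => IsSep σ q)).card + 1

open Classical in
/-- the generalised inner product of the words: the parity of the number of the `i` such that all words
have the letter number `i` with the value `true` -/
noncomputable def wordsGip {m : ℕ} (σ : Fin m → Bool × Bool) : Bool :=
  decide (Odd (univ.filter (fun i : Fin m => ∀ j, j < numWords σ →
    ∃ p, IsLetter σ p ∧ wordIdx σ p = j ∧ letterIdx σ p = i.1 ∧ (σ p).2 = true)).card)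

section

variable {m k ρ : ℕ} (sp : Fin (k + 1) → Fin m) (lp : Fin (k + 1) → Fin ρ → Fin m)
  (a : Fin (k + 1) → Fin ρ → ZMod 2)

open Classical in
/-- the sequence with the letters `a` at the positions `lp` and the separators at the positions `sp` -/
noncomputable def seqOf (p : Fin m) : Bool × Bool :=
  (decide (∃ q : Fin (k + 1) × Fin ρ, lp q.1 q.2 = p),
    decide ((∃ j, 0 < j ∧ sp j = p) ∨ ∃ q : Fin (k + 1) × Fin ρ, lp q.1 q.2 = p ∧ a q.1 q.2 = 1))

variable (h1 : ∀ j i, sp j < lp j i) (h2 : ∀ j i i', i < i' → lp j i < lp j i')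
  (h3 : ∀ j j' i, j < j' → lp j i < sp j') (h4 : ∀ j j', j < j' → sp j < sp j')

include h2 in
lemma lp_lt_iff (j : Fin (k + 1)) (i i' : Fin ρ) : lp j i < lp j i' ↔ i < i' := by
  constructor
  · intro h
    by_contra hcon
    rcases lt_or_eq_of_le (not_lt.1 hcon) with h5 | h5
    · exact absurd (h2 j i' i h5) (not_lt.2 h.le)
    · rw [h5] at h
      exact lt_irrefl _ h
  · exact h2 j i i'

include h1 h3 in
lemma sp_lt_lp (j j' : Fin (k + 1)) (i : Fin ρ) (h : j ≤ j') (h4 : ∀ j j', j < j' → sp j < sp j') : sp j < lp j' i := by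
  rcases lt_or_eq_of_le h with h5 | h5
  · exact (h4 j j' h5).trans (h1 j' i)
  · rw [h5]
    exact h1 j' i

include h1 h2 h3 in
lemma lp_inj {j j' : Fin (k + 1)} {i i' : Fin ρ} (h : lp j i = lp j' i') : j = j' ∧ i = i' := by
  rcases lt_trichotomy j j' with h5 | h5 | h5
  · exact absurd h (((h3 j j' i h5).trans (h1 j' i')).ne)
  · subst h5
    refine ⟨rfl, ?_⟩
    rcases lt_trichotomy i i' with h6 | h6 | h6
    · exact absurd h (h2 j i i' h6).ne
    · exact h6
    · exact absurd h (h2 j i' i h6).ne'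
  · exact absurd h (((h3 j' j i' h5).trans (h1 j i)).ne')

include h1 h3 h4 in
lemma sp_ne_lp (j j' : Fin (k + 1)) (i : Fin ρ) : sp j ≠ lp j' i := by
  rcases le_or_gt j j' with h | h
  · exact (sp_lt_lp sp lp h1 h3 j j' i h h4).ne
  · exact (h3 j' j i h).ne'

lemma isLetter_iff (p : Fin m) : IsLetter (seqOf sp lp a) p ↔ ∃ j i, lp j i = p := by
  unfold IsLetter seqOf
  simp

include h1 h3 h4 in
lemma isSep_iff (p : Fin m) : IsSep (seqOf sp lp a) p ↔ ∃ j, 0 < j ∧ sp j = p := by
  unfold IsSep seqOf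
  simp only [decide_eq_false_iff_not, decide_eq_true_eq]
  constructor
  · rintro ⟨h, h5 | ⟨q, h5, -⟩⟩
    · exact h5
    · exact absurd ⟨q, h5⟩ h
  · rintro ⟨j, hj, h⟩
    refine ⟨?_, Or.inl ⟨j, hj, h⟩⟩
    rintro ⟨q, hq⟩
    exact sp_ne_lp sp lp h1 h3 h4 j q.1 q.2 (h.trans hq.symm)

include h4 in
lemma sp_inj : Function.Injective sp := by
  have : StrictMono sp := fun j j' h => h4 j j' h
  exact this.injective

include h1 h3 h4 in
lemma wordIdx_lp (j : Fin (k + 1)) (i : Fin ρ) : wordIdx (seqOf sp lp a) (lp j i) = j.1 := by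
  classical
  unfold wordIdx
  have e : (univ.filter (fun q => q < lp j i ∧ IsSep (seqOf sp lp a) q)) =
      (Finset.Ioc 0 j).image sp := by
    ext q
    rw [mem_filter, mem_image]
    constructor
    · rintro ⟨-, hq, hs⟩
      obtain ⟨j', hj', rfl⟩ := (isSep_iff sp lp a h1 h3 h4 q).1 hs
      refine ⟨j', ?_, rfl⟩
      rw [mem_Ioc]
      refine ⟨hj', ?_⟩
      by_contra hcon
      push Not at hcon
      exact absurd hq (not_lt.2 (h3 j j' i hcon).le)
    · rintro ⟨j', hj', rfl⟩
      rw [mem_Ioc] at hj'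
      exact ⟨mem_univ _, sp_lt_lp sp lp h1 h3 j' j i hj'.2 h4, (isSep_iff sp lp a h1 h3 h4 _).2 ⟨j', hj'.1, rfl⟩⟩
  have e2 : (univ.filter (fun q => q < lp j i ∧ IsSep (seqOf sp lp a) q)).card = j.1 := by
    rw [e, card_image_of_injective _ (sp_inj sp h4), Fin.card_Ioc]
    simp
  convert e2

include h1 h2 h3 h4 in
lemma letterIdx_lp (j : Fin (k + 1)) (i : Fin ρ) : letterIdx (seqOf sp lp a) (lp j i) = i.1 := by
  classical
  unfold letterIdx
  have e : (univ.filter (fun q => q < lp j i ∧ IsLetter (seqOf sp lp a) q ∧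
      wordIdx (seqOf sp lp a) q = wordIdx (seqOf sp lp a) (lp j i))) =
      (Finset.Iio i).image (lp j) := by
    ext q
    rw [mem_filter, mem_image]
    constructor
    · rintro ⟨-, hq, hl, hw⟩
      obtain ⟨j', i', rfl⟩ := (isLetter_iff sp lp a q).1 hl
      rw [wordIdx_lp sp lp a h1 h3 h4, wordIdx_lp sp lp a h1 h3 h4] at hw
      have hj : j' = j := Fin.ext hw
      subst hj
      refine ⟨i', ?_, rfl⟩
      rw [mem_Iio]
      exact (lp_lt_iff lp h2 j' i' i).1 hq
    · rintro ⟨i', hi', rfl⟩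
      rw [mem_Iio] at hi'
      refine ⟨mem_univ _, h2 j i' i hi', (isLetter_iff sp lp a _).2 ⟨j, i', rfl⟩, ?_⟩
      rw [wordIdx_lp sp lp a h1 h3 h4, wordIdx_lp sp lp a h1 h3 h4]
  have e2 : (univ.filter (fun q => q < lp j i ∧ IsLetter (seqOf sp lp a) q ∧
      wordIdx (seqOf sp lp a) q = wordIdx (seqOf sp lp a) (lp j i))).card = i.1 := by
    rw [e, card_image_of_injective _ (fun x y h => (lp_inj sp lp h1 h2 h3 h).2), Fin.card_Iio]
  convert e2

include h1 h3 h4 in
lemma numWords_seqOf : numWords (seqOf sp lp a) = k + 1 := by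
  classical
  unfold numWords
  have e : (univ.filter (fun q => IsSep (seqOf sp lp a) q)) = (Finset.Ioi 0).image sp := by
    ext q
    rw [mem_filter, mem_image]
    constructor
    · rintro ⟨-, hs⟩
      obtain ⟨j', hj', rfl⟩ := (isSep_iff sp lp a h1 h3 h4 q).1 hs
      exact ⟨j', mem_Ioi.2 hj', rfl⟩
    · rintro ⟨j', hj', rfl⟩
      rw [mem_Ioi] at hj'
      exact ⟨mem_univ _, (isSep_iff sp lp a h1 h3 h4 _).2 ⟨j', hj', rfl⟩⟩
  have e2 : (univ.filter (fun q => IsSep (seqOf sp lp a) q)).card = k := by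
    rw [e, card_image_of_injective _ (sp_inj sp h4), Fin.card_Ioi]
    simp
  have e3 : (univ.filter (fun q => IsSep (seqOf sp lp a) q)).card + 1 = k + 1 := by rw [e2]
  convert e3

lemma gip_eq_one_iff : gip k a = 1 ↔ Odd (univ.filter (fun i : Fin ρ => ∀ j, a j i = 1)).card := by
  have e : gip k a = ((univ.filter (fun i : Fin ρ => ∀ j, a j i = 1)).card : ZMod 2) := by
    unfold gip
    rw [card_filter]
    push_cast
    refine sum_congr rfl fun i _ => ?_
    by_cases h : ∀ j, a j i = 1
    · rw [if_pos h]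
      exact prod_eq_one fun j _ => h j
    · rw [if_neg h]
      push Not at h
      obtain ⟨j, hj⟩ := h
      refine prod_eq_zero (mem_univ j) ?_
      rcases zcases (a j i) with h5 | h5
      · exact h5
      · exact absurd h5 hj
  rw [e]
  exact ZMod.natCast_eq_one_iff_odd

include h1 h2 h3 h4 in
/-- **The embedding of the generalised inner product.** -/
theorem wordsGip_seqOf : wordsGip (seqOf sp lp a) = true ↔ gip k a = 1 := by
  classical
  rw [gip_eq_one_iff]
  have hρ : ρ ≤ m := by
    have : Function.Injective (lp 0) := fun x y h => (lp_inj sp lp h1 h2 h3 h).2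
    simpa using Fintype.card_le_of_injective _ this
  have hval : ∀ j i, (seqOf sp lp a (lp j i)).2 = true ↔ a j i = 1 := by
    intro j i
    unfold seqOf
    simp only [decide_eq_true_eq]
    constructor
    · rintro (⟨j', -, h⟩ | ⟨q, hq, h⟩)
      · exact absurd h (sp_ne_lp sp lp h1 h3 h4 j' j i)
      · obtain ⟨h5, h6⟩ := lp_inj sp lp h1 h2 h3 hq
        rw [← h5, ← h6]
        exact h
    · intro h
      exact Or.inr ⟨(j, i), rfl, h⟩
  have e : (univ.filter (fun i : Fin m => ∀ j, j < numWords (seqOf sp lp a) →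
      ∃ p, IsLetter (seqOf sp lp a) p ∧ wordIdx (seqOf sp lp a) p = j ∧
        letterIdx (seqOf sp lp a) p = i.1 ∧ (seqOf sp lp a p).2 = true)) =
      (univ.filter (fun i : Fin ρ => ∀ j, a j i = 1)).image (Fin.castLE hρ) := by
    ext i
    rw [mem_filter, mem_image, numWords_seqOf sp lp a h1 h3 h4]
    constructor
    · rintro ⟨-, h⟩
      obtain ⟨p, hl, hw, hi, hv⟩ := h 0 (by omega)
      obtain ⟨j', i', rfl⟩ := (isLetter_iff sp lp a p).1 hl
      rw [letterIdx_lp sp lp a h1 h2 h3 h4] at hi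
      refine ⟨i', ?_, Fin.ext hi⟩
      rw [mem_filter]
      refine ⟨mem_univ _, fun j => ?_⟩
      obtain ⟨p, hl', hw', hi'', hv'⟩ := h j.1 j.2
      obtain ⟨j'', i'', rfl⟩ := (isLetter_iff sp lp a p).1 hl'
      rw [letterIdx_lp sp lp a h1 h2 h3 h4] at hi''
      rw [wordIdx_lp sp lp a h1 h3 h4] at hw'
      have e1 : j'' = j := Fin.ext hw'
      have e2 : i'' = i' := Fin.ext (hi''.trans hi.symm)
      rw [hval, e1, e2] at hv'
      exact hv'
    · rintro ⟨i', hi', rfl⟩
      rw [mem_filter] at hi'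
      refine ⟨mem_univ _, fun j hj => ?_⟩
      refine ⟨lp ⟨j, hj⟩ i', (isLetter_iff sp lp a _).2 ⟨_, _, rfl⟩, wordIdx_lp sp lp a h1 h3 h4 _ _,
        letterIdx_lp sp lp a h1 h2 h3 h4 _ _, ?_⟩
      rw [hval]
      exact hi'.2 _
  have e2 : (univ.filter (fun i : Fin m => ∀ j, j < numWords (seqOf sp lp a) →
      ∃ p, IsLetter (seqOf sp lp a) p ∧ wordIdx (seqOf sp lp a) p = j ∧
        letterIdx (seqOf sp lp a) p = i.1 ∧ (seqOf sp lp a p).2 = true)).card =
      (univ.filter (fun i : Fin ρ => ∀ j, a j i = 1)).card := by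
    rw [e, card_image_of_injective _ (Fin.castLE_injective hρ)]
  unfold wordsGip
  rw [decide_eq_true_eq, ← e2]

end

end Pool.Agent.W2helper94.SH
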