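import Pool.Agent.W2helper94.SH.Cover
import Pool.Agent.W2helper94.SH.Fn

set_option autoImplicit false

/-!
# The embedding into circuits
-/

open Finset Pool.Agent.Y631.Tr

namespace Pool.Agent.W2helper94.SH

/-- the input bits are read as a sequence of `⌊n / 2⌋` pairs -/
def pairs (n : ℕ) (x : Fin n → Bool) (p : Fin (n / 2)) : Bool × Bool :=
  (x ⟨2 * p.1, by omega⟩, x ⟨2 * p.1 + 1, by omega⟩)

/-- **The explicit function** of `n` bits -/
noncomputable def wordsFn (n : ℕ) (x : Fin n → Bool) : Bool := wordsGip (pairs n x)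

/-- the number of the input bit that holds the value of the letter at the position `p` -/
def valBit (n : ℕ) (p : Fin (n / 2)) : Fin n := ⟨2 * p.1 + 1, by omega⟩

lemma valBit_inj (n : ℕ) : Function.Injective (valBit n) := by
  intro p q h
  have : 2 * p.1 + 1 = 2 * q.1 + 1 := congrArg Fin.val h
  exact Fin.ext (by omega)

section

variable {n k ρ : ℕ} (sp : Fin (k + 1) → Fin (n / 2)) (lp : Fin (k + 1) → Fin ρ → Fin (n / 2))

/-- the input with the letters `z` -/
noncomputable def enc (z : Fin (k + 1) → Fin ρ → ZMod 2) (i : Fin n) : Bool :=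
  if h : i.1 / 2 < n / 2 then
    (if i.1 % 2 = 0 then (seqOf sp lp z ⟨i.1 / 2, h⟩).1 else (seqOf sp lp z ⟨i.1 / 2, h⟩).2) else false

lemma pairs_enc (z : Fin (k + 1) → Fin ρ → ZMod 2) : pairs n (enc sp lp z) = seqOf sp lp z := by
  funext p
  have hp := p.2
  unfold pairs enc
  apply Prod.ext
  · simp only
    have h1 : 2 * p.1 / 2 = p.1 := by omega
    have h2 : 2 * p.1 % 2 = 0 := by omega
    have h3 : 2 * p.1 / 2 < n / 2 := by omega
    rw [dif_pos h3, if_pos h2]
    congr 2
    exact Fin.ext h1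
  · simp only
    have h1 : (2 * p.1 + 1) / 2 = p.1 := by omega
    have h2 : ¬ (2 * p.1 + 1) % 2 = 0 := by omega
    have h3 : (2 * p.1 + 1) / 2 < n / 2 := by omega
    rw [dif_pos h3, if_neg h2]
    congr 2
    exact Fin.ext h1

/-- the input bits which hold the values of the letters of the word `j` -/
def wordBits (j : Fin (k + 1)) (i : Fin n) : Prop := ∃ t, i = valBit n (lp j t)

lemma enc_update (j : Fin (k + 1)) (z : Fin (k + 1) → Fin ρ → ZMod 2) (x : Fin ρ → ZMod 2) (i : Fin n)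
    (hi : ¬ wordBits lp j i) : enc sp lp (Function.update z j x) i = enc sp lp z i := by
  classical
  unfold enc
  by_cases h : i.1 / 2 < n / 2
  · rw [dif_pos h, dif_pos h]
    by_cases h2 : i.1 % 2 = 0
    · rw [if_pos h2, if_pos h2]
      rfl
    · rw [if_neg h2, if_neg h2]
      unfold seqOf
      simp only
      have key : ∀ q : Fin (k + 1) × Fin ρ, lp q.1 q.2 = (⟨i.1 / 2, h⟩ : Fin (n / 2)) → q.1 ≠ j := by
        rintro ⟨q1, q2⟩ hq rfl
        apply hi
        refine ⟨q2, ?_⟩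
        show i = valBit n (lp q1 q2)
        have hq' : lp q1 q2 = (⟨i.1 / 2, h⟩ : Fin (n / 2)) := hq
        rw [hq']
        apply Fin.ext
        show i.1 = 2 * (i.1 / 2) + 1
        omega
      have key2 : (∃ q : Fin (k + 1) × Fin ρ, lp q.1 q.2 = (⟨i.1 / 2, h⟩ : Fin (n / 2)) ∧
          Function.update z j x q.1 q.2 = 1) ↔
          (∃ q : Fin (k + 1) × Fin ρ, lp q.1 q.2 = (⟨i.1 / 2, h⟩ : Fin (n / 2)) ∧ z q.1 q.2 = 1) := by
        constructor
        · rintro ⟨q, h3, h4⟩
          rw [Function.update_of_ne (key q h3)] at h4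
          exact ⟨q, h3, h4⟩
        · rintro ⟨q, h3, h4⟩
          refine ⟨q, h3, ?_⟩
          rw [Function.update_of_ne (key q h3)]
          exact h4
      have key3 : ((∃ j, 0 < j ∧ sp j = (⟨i.1 / 2, h⟩ : Fin (n / 2))) ∨
          ∃ q : Fin (k + 1) × Fin ρ, lp q.1 q.2 = (⟨i.1 / 2, h⟩ : Fin (n / 2)) ∧
          Function.update z j x q.1 q.2 = 1) ↔
          ((∃ j, 0 < j ∧ sp j = (⟨i.1 / 2, h⟩ : Fin (n / 2))) ∨
          ∃ q : Fin (k + 1) × Fin ρ, lp q.1 q.2 = (⟨i.1 / 2, h⟩ : Fin (n / 2)) ∧ z q.1 q.2 = 1) := by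
        rw [key2]
      exact decide_eq_decide.2 key3
  · rw [dif_neg h, dif_neg h]

end

/-- **The bound for an embedding.** -/
theorem emb_bound {n k ρ : ℕ} (hk : 1 ≤ k) (C : Net (Fin n) Unit Bool)
    (G Z : Finset (Fin C.size)) (lam : Fin C.size → ℕ) (hadd : ∀ g ∈ Z, AddLE (lam g) (C.op g))
    (b : Bool) (hf : ∀ x, Accepts C G x ↔ wordsFn n x = b)
    (sp : Fin (k + 1) → Fin (n / 2)) (lp : Fin (k + 1) → Fin ρ → Fin (n / 2))
    (h1 : ∀ j i, sp j < lp j i) (h2 : ∀ j i i', i < i' → lp j i < lp j i')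
    (h3 : ∀ j j' i, j < j' → lp j i < sp j') (h4 : ∀ j j', j < j' → sp j < sp j')
    (player : Fin C.size → Fin (k + 1))
    (hpl : ∀ h g, C.Joined h g → h ∉ Z → g ∉ Z → player h = player g)
    (hrd : ∀ g, g ∉ Z → ∀ a j t, C.src g a = Sum.inl (valBit n (lp j t)) → player g ≠ j) :
    ρ ≤ (∑ g ∈ Z, (1 + (k + 1) * lam g) + 2) * 4 ^ k := by
  classical
  have hex : ∀ g, ∃ (A : Type) (_ : AddCommGroup A) (_ : Fintype A) (c : Fin (C.arity g) → A),
      (g ∈ Z → Fintype.card A ≤ 2 ^ lam g) ∧ (g ∈ Z → ∀ u v : Fin (C.arity g) → Bool,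
      (∑ i, if u i = true then c i else 0) = (∑ i, if v i = true then c i else 0) → C.op g u = C.op g v) := by
    intro g
    by_cases hg : g ∈ Z
    · obtain ⟨A, i1, i2, c, h5, h6⟩ := hadd g hg
      exact ⟨A, i1, i2, c, fun _ => h5, fun _ => h6⟩
    · exact ⟨ZMod 2, inferInstance, inferInstance, fun _ => 0, fun h => absurd h hg, fun h => absurd h hg⟩
  choose A i1 i2 c hA hop using hex
  letI := i1
  letI := i2
  have h := net_cover C c G Z lam hA hop player (enc sp lp) (wordBits lp)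
    (fun j z x i hi => enc_update sp lp j z x i hi) ?_ hpl ?_ (if b = true then 1 else 0) ?_
  · simpa using h
  · intro i
    by_contra hcon
    push Not at hcon
    obtain ⟨t, ht⟩ := hcon 0
    obtain ⟨t', ht'⟩ := hcon ⟨1, by omega⟩
    have h5 := valBit_inj n (ht.symm.trans ht')
    have h6 := (lp_inj sp lp h1 h2 h3 h5).1
    have h7 : (0 : Fin (k + 1)).1 = 1 := congrArg Fin.val h6
    simp at h7
  · intro g hg a i hs
    rintro ⟨t, ht⟩
    rw [ht] at hs
    exact hrd g hg a _ t hs rfl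
  · intro z
    rw [hf]
    have h5 : wordsFn n (enc sp lp z) = true ↔ gip k z = 1 := by
      unfold wordsFn
      rw [pairs_enc]
      exact wordsGip_seqOf sp lp z h1 h2 h3 h4
    cases b with
    | true => simpa using h5
    | false =>
      have h6 : gip k z = 0 ↔ ¬ (gip k z = 1) := by
        rcases zcases (gip k z) with h | h <;> rw [h] <;> decide
      simp only [Bool.false_eq_true, if_false]
      rw [h6, ← h5]
      simp

end Pool.Agent.W2helper94.SH
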