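import Mathlib

set_option autoImplicit false

/-!
# A random labelling by the second moment
-/

open Finset

namespace Pool.Agent.W2helper94.SH

section

variable {K V : Type} [Fintype K] [DecidableEq K] [DecidableEq V]

/-- the indicator function of the labellings in which no element of `O` has the label `j` -/
noncomputable def ind (k : ℕ) (O : Finset K) (j : Fin (k + 1)) (χ : K → Fin (k + 1)) : ℝ :=
  ∏ o, if o ∈ O then (if χ o ≠ j then (1 : ℝ) else 0) else 1

omit [DecidableEq V] in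
lemma ind_eq (k : ℕ) (O : Finset K) (j : Fin (k + 1)) (χ : K → Fin (k + 1)) [Decidable (∀ o ∈ O, χ o ≠ j)] :
    ind k O j χ = if ∀ o ∈ O, χ o ≠ j then 1 else 0 := by
  unfold ind
  by_cases h : ∀ o ∈ O, χ o ≠ j
  · rw [if_pos h]
    refine prod_eq_one fun o _ => ?_
    by_cases ho : o ∈ O
    · rw [if_pos ho, if_pos (h o ho)]
    · rw [if_neg ho]
  · rw [if_neg h]
    push Not at h
    obtain ⟨o, ho, h⟩ := h
    refine prod_eq_zero (mem_univ o) ?_
    rw [if_pos ho, if_neg (not_not.2 h)]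

/-- the mean of the indicator function -/
lemma ind_sum (k : ℕ) (O : Finset K) (j : Fin (k + 1)) :
    ∑ χ : K → Fin (k + 1), ind k O j χ =
      ((k : ℝ) + 1) ^ Fintype.card K * ((k : ℝ) / (k + 1)) ^ O.card := by
  unfold ind
  have h := Finset.prod_univ_sum (fun _ : K => (univ : Finset (Fin (k + 1))))
    (fun (o : K) (c : Fin (k + 1)) => if o ∈ O then (if c ≠ j then (1 : ℝ) else 0) else 1)
  rw [Fintype.piFinset_univ] at h
  rw [← h]
  have hk : (k : ℝ) + 1 ≠ 0 := by positivity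
  have h2 : ∀ o : K, ∑ c : Fin (k + 1), (if o ∈ O then (if c ≠ j then (1 : ℝ) else 0) else 1) =
      ((k : ℝ) + 1) * (if o ∈ O then (k : ℝ) / (k + 1) else 1) := by
    intro o
    by_cases ho : o ∈ O
    · simp only [if_pos ho]
      have e : ∑ c : Fin (k + 1), (if c ≠ j then (1 : ℝ) else 0) = k := by
        rw [← sum_filter, sum_const, nsmul_eq_mul, mul_one, filter_ne' univ j, card_erase_of_mem (mem_univ j),
          card_univ, Fintype.card_fin]
        simp
      rw [e]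
      field_simp
    · simp only [if_neg ho, sum_const, card_univ, Fintype.card_fin, nsmul_eq_mul]
      push_cast
      ring
  rw [prod_congr rfl fun o _ => h2 o, prod_mul_distrib, prod_const, card_univ, prod_ite, prod_const, prod_const_one,
    mul_one]
  congr 2
  congr 1
  ext o
  simp

omit [DecidableEq V] in
lemma ind_mul (k : ℕ) (O O' : Finset K) (j : Fin (k + 1)) (χ : K → Fin (k + 1)) :
    ind k O j χ * ind k O' j χ = ind k (O ∪ O') j χ := by
  unfold ind
  rw [← prod_mul_distrib]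
  refine prod_congr rfl fun o _ => ?_
  by_cases h1 : o ∈ O <;> by_cases h2 : o ∈ O' <;> by_cases h3 : χ o ≠ j <;> simp [h1, h2, h3]

omit [DecidableEq V] in
lemma ind_le (k : ℕ) (O : Finset K) (j : Fin (k + 1)) (χ : K → Fin (k + 1)) : ind k O j χ ≤ 1 := by
  classical
  rw [ind_eq]
  split_ifs <;> norm_num

lemma cov_le (k : ℕ) (O O' : Finset K) (j : Fin (k + 1)) :
    ∑ χ : K → Fin (k + 1), (ind k O j χ - ((k : ℝ) / (k + 1)) ^ O.card) * (ind k O' j χ - ((k : ℝ) / (k + 1)) ^ O'.card) ≤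
      if Disjoint O O' then 0 else ((k : ℝ) + 1) ^ Fintype.card K := by
  obtain ⟨q, hq⟩ : ∃ q : ℝ, q = (k : ℝ) / (k + 1) := ⟨_, rfl⟩
  obtain ⟨T, hT⟩ : ∃ T : ℝ, T = ((k : ℝ) + 1) ^ Fintype.card K := ⟨_, rfl⟩
  have hs := fun O : Finset K => ind_sum k O j
  rw [← hq, ← hT]
  simp only [← hq, ← hT] at hs
  have hq0 : 0 ≤ q := by rw [hq]; positivity
  have hT0 : 0 ≤ T := by rw [hT]; positivity
  have hcard : ((univ : Finset (K → Fin (k + 1))).card : ℝ) = T := by
    rw [card_univ, Fintype.card_fun, Fintype.card_fin, hT]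
    push_cast
    rfl
  have e : ∑ χ : K → Fin (k + 1), (ind k O j χ - q ^ O.card) * (ind k O' j χ - q ^ O'.card) =
      ∑ χ : K → Fin (k + 1), ind k (O ∪ O') j χ - T * (q ^ O.card * q ^ O'.card) := by
    have e1 : ∀ χ : K → Fin (k + 1), (ind k O j χ - q ^ O.card) * (ind k O' j χ - q ^ O'.card) =
        ind k (O ∪ O') j χ - q ^ O'.card * ind k O j χ - q ^ O.card * ind k O' j χ + q ^ O.card * q ^ O'.card := by
      intro χ
      rw [← ind_mul]
      ring
    rw [sum_congr rfl fun χ _ => e1 χ, sum_add_distrib, sum_sub_distrib, sum_sub_distrib, ← mul_sum, ← mul_sum,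
      hs O, hs O', sum_const, nsmul_eq_mul, hcard]
    ring
  rw [e]
  by_cases h : Disjoint O O'
  · rw [if_pos h, hs (O ∪ O'), card_union_of_disjoint h, pow_add]
    simp
  · rw [if_neg h]
    have h1 : ∑ χ : K → Fin (k + 1), ind k (O ∪ O') j χ ≤ T := by
      calc ∑ χ : K → Fin (k + 1), ind k (O ∪ O') j χ ≤ ∑ χ : K → Fin (k + 1), (1 : ℝ) :=
            sum_le_sum fun χ _ => ind_le k _ j χ
        _ = T := by rw [sum_const, nsmul_eq_mul, mul_one, hcard]
    have h2 : 0 ≤ T * (q ^ O.card * q ^ O'.card) := by positivity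
    linarith

/-- the variance -/
lemma var_le (k d w : ℕ) (O : V → Finset K) (B : Finset V) (hO : ∀ v ∈ B, (O v).card ≤ d)
    (hw : ∀ o : K, (B.filter (fun v => o ∈ O v)).card ≤ w) (j : Fin (k + 1)) :
    ∑ χ : K → Fin (k + 1), (∑ v ∈ B, (ind k (O v) j χ - ((k : ℝ) / (k + 1)) ^ (O v).card)) ^ 2 ≤
      ((k : ℝ) + 1) ^ Fintype.card K * (B.card * (d * w)) := by
  classical
  obtain ⟨T, hT⟩ : ∃ T : ℝ, T = ((k : ℝ) + 1) ^ Fintype.card K := ⟨_, rfl⟩
  have hT0 : 0 ≤ T := by rw [hT]; positivity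
  have e : ∑ χ : K → Fin (k + 1), (∑ v ∈ B, (ind k (O v) j χ - ((k : ℝ) / (k + 1)) ^ (O v).card)) ^ 2 =
      ∑ v ∈ B, ∑ v' ∈ B, ∑ χ : K → Fin (k + 1), (ind k (O v) j χ - ((k : ℝ) / (k + 1)) ^ (O v).card) *
        (ind k (O v') j χ - ((k : ℝ) / (k + 1)) ^ (O v').card) := by
    have e1 : ∀ χ : K → Fin (k + 1), (∑ v ∈ B, (ind k (O v) j χ - ((k : ℝ) / (k + 1)) ^ (O v).card)) ^ 2 =
        ∑ v ∈ B, ∑ v' ∈ B, (ind k (O v) j χ - ((k : ℝ) / (k + 1)) ^ (O v).card) *
        (ind k (O v') j χ - ((k : ℝ) / (k + 1)) ^ (O v').card) := by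
      intro χ
      rw [sq, sum_mul_sum]
    rw [sum_congr rfl fun χ _ => e1 χ, sum_comm]
    refine sum_congr rfl fun v _ => ?_
    rw [sum_comm]
  rw [e, ← hT]
  have h1 : ∀ v ∈ B, ∑ v' ∈ B, ∑ χ : K → Fin (k + 1), (ind k (O v) j χ - ((k : ℝ) / (k + 1)) ^ (O v).card) *
        (ind k (O v') j χ - ((k : ℝ) / (k + 1)) ^ (O v').card) ≤ T * (d * w) := by
    intro v hv
    calc ∑ v' ∈ B, ∑ χ : K → Fin (k + 1), (ind k (O v) j χ - ((k : ℝ) / (k + 1)) ^ (O v).card) *
        (ind k (O v') j χ - ((k : ℝ) / (k + 1)) ^ (O v').card) ≤ ∑ v' ∈ B, (if Disjoint (O v) (O v') then 0 else T) := by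
          refine sum_le_sum fun v' _ => ?_
          rw [hT]
          exact cov_le k (O v) (O v') j
      _ = T * ((B.filter (fun v' => ¬ Disjoint (O v) (O v'))).card : ℝ) := by
          rw [sum_ite, sum_const_zero, zero_add, sum_const, nsmul_eq_mul, mul_comm]
      _ ≤ T * (d * w) := by
          refine mul_le_mul_of_nonneg_left ?_ hT0
          have h2 : (B.filter (fun v' => ¬ Disjoint (O v) (O v'))) ⊆
              (O v).biUnion (fun o => B.filter (fun v' => o ∈ O v')) := by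
            intro v' hv'
            rw [mem_filter, Finset.not_disjoint_iff] at hv'
            obtain ⟨hB, o, h3, h4⟩ := hv'
            rw [mem_biUnion]
            exact ⟨o, h3, mem_filter.2 ⟨hB, h4⟩⟩
          have h3 : (B.filter (fun v' => ¬ Disjoint (O v) (O v'))).card ≤ d * w := by
            calc _ ≤ _ := card_le_card h2
              _ ≤ ∑ o ∈ O v, (B.filter (fun v' => o ∈ O v')).card := card_biUnion_le
              _ ≤ ∑ _o ∈ O v, w := sum_le_sum fun o _ => hw o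
              _ = (O v).card * w := by rw [sum_const, smul_eq_mul]
              _ ≤ d * w := Nat.mul_le_mul_right _ (hO v hv)
          exact_mod_cast h3
  calc _ ≤ ∑ _v ∈ B, T * ((d : ℝ) * w) := sum_le_sum h1
    _ = T * (B.card * (d * w)) := by
        rw [sum_const, nsmul_eq_mul]
        ring

open Classical in
/-- **The labelling.** -/
theorem exists_labels (k d w L : ℕ) (O : V → Finset K) (B : Fin (k + 1) → Finset V)
    (hO : ∀ j, ∀ v ∈ B j, (O v).card ≤ d) (hB : ∀ j, (B j).card = L)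
    (hw : ∀ j, ∀ o : K, ((B j).filter (fun v => o ∈ O v)).card ≤ w)
    (hcond : 4 * ((k + 1) * (d * w)) * (k + 1) ^ (2 * d) < L * k ^ (2 * d)) :
    ∃ χ : K → Fin (k + 1), ∀ j, L * k ^ d ≤
      2 * (((B j).filter (fun v => ∀ o ∈ O v, χ o ≠ j)).card * (k + 1) ^ d) := by
  obtain ⟨q, hq⟩ : ∃ q : ℝ, q = (k : ℝ) / (k + 1) := ⟨_, rfl⟩
  obtain ⟨T, hT⟩ : ∃ T : ℝ, T = ((k : ℝ) + 1) ^ Fintype.card K := ⟨_, rfl⟩
  have hT0 : 0 < T := by rw [hT]; positivity
  have hk1 : (0 : ℝ) < (k : ℝ) + 1 := by positivity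
  have hq0 : 0 ≤ q := by rw [hq]; positivity
  have hq1 : q ≤ 1 := by
    rw [hq, div_le_one hk1]
    linarith
  have hqk : q * (k + 1) = k := by
    rw [hq]
    field_simp
  by_contra hcon
  push Not at hcon
  have hcard : ((univ : Finset (K → Fin (k + 1))).card : ℝ) = T := by
    rw [card_univ, Fintype.card_fun, Fintype.card_fin, hT]
    push_cast
    rfl
  have h1 : ∀ χ : K → Fin (k + 1), (L * q ^ d / 2) ^ 2 ≤
      ∑ j, (∑ v ∈ B j, (ind k (O v) j χ - q ^ (O v).card)) ^ 2 := by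
    intro χ
    obtain ⟨j, hj⟩ := hcon χ
    refine le_trans ?_ (single_le_sum (f := fun j => (∑ v ∈ B j, (ind k (O v) j χ - q ^ (O v).card)) ^ 2)
      (fun j _ => sq_nonneg _) (mem_univ j))
    show _ ≤ (∑ v ∈ B j, (ind k (O v) j χ - q ^ (O v).card)) ^ 2
    have e1 : ∑ v ∈ B j, ind k (O v) j χ = (((B j).filter (fun v => ∀ o ∈ O v, χ o ≠ j)).card : ℝ) := by
      rw [card_filter]
      push_cast
      refine sum_congr rfl fun v _ => ?_
      rw [ind_eq]
    have e2 : (L : ℝ) * q ^ d ≤ ∑ v ∈ B j, q ^ (O v).card := by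
      calc (L : ℝ) * q ^ d = ∑ _v ∈ B j, q ^ d := by rw [sum_const, nsmul_eq_mul, hB j]
        _ ≤ _ := sum_le_sum fun v hv => pow_le_pow_of_le_one hq0 hq1 (hO j v hv)
    have e3 : 2 * ((((B j).filter (fun v => ∀ o ∈ O v, χ o ≠ j)).card : ℝ)) ≤ L * q ^ d := by
      have h2 : (2 * (((B j).filter (fun v => ∀ o ∈ O v, χ o ≠ j)).card * ((k : ℝ) + 1) ^ d)) < L * (k : ℝ) ^ d := by
        exact_mod_cast hj
      have h3 : (0 : ℝ) < ((k : ℝ) + 1) ^ d := by positivity
      have h4 : (k : ℝ) ^ d = q ^ d * ((k : ℝ) + 1) ^ d := by rw [← mul_pow, hqk]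
      rw [h4, ← mul_assoc, ← mul_assoc] at h2
      exact (lt_of_mul_lt_mul_right h2 h3.le).le
    rw [sum_sub_distrib, e1, ← sq_abs (_ - _)]
    refine pow_le_pow_left₀ (by positivity) ?_ 2
    rw [abs_sub_comm]
    refine le_trans ?_ (le_abs_self _)
    linarith
  have h2 : T * (L * q ^ d / 2) ^ 2 ≤ T * ((k + 1) * (L * (d * w))) := by
    calc T * (L * q ^ d / 2) ^ 2 = ∑ _χ : K → Fin (k + 1), (L * q ^ d / 2) ^ 2 := by
          rw [sum_const, nsmul_eq_mul, hcard]
      _ ≤ ∑ χ : K → Fin (k + 1), ∑ j, (∑ v ∈ B j, (ind k (O v) j χ - q ^ (O v).card)) ^ 2 :=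
          sum_le_sum fun χ _ => h1 χ
      _ = ∑ j, ∑ χ : K → Fin (k + 1), (∑ v ∈ B j, (ind k (O v) j χ - q ^ (O v).card)) ^ 2 := sum_comm
      _ ≤ ∑ _j : Fin (k + 1), T * ((L : ℝ) * (d * w)) := by
          refine sum_le_sum fun j _ => ?_
          have := var_le k d w O (B j) (hO j) (hw j) j
          rw [hB j, ← hT, ← hq] at this
          exact this
      _ = _ := by
          rw [sum_const, card_univ, Fintype.card_fin, nsmul_eq_mul]
          push_cast
          ring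
  have h3 := le_of_mul_le_mul_left h2 hT0
  have hL : 0 < L := by
    rcases Nat.eq_zero_or_pos L with h | h
    · rw [h] at hcond
      simp at hcond
    · exact h
  have hL' : (0 : ℝ) < L := by exact_mod_cast hL
  have h4 : (4 * (((k : ℝ) + 1) * (d * w)) * ((k : ℝ) + 1) ^ (2 * d)) < L * (k : ℝ) ^ (2 * d) := by
    exact_mod_cast hcond
  have h5 : (0 : ℝ) < ((k : ℝ) + 1) ^ (2 * d) := by positivity
  have h6 : 4 * (((k : ℝ) + 1) * (d * w)) < L * q ^ (2 * d) := by
    have h8 : (k : ℝ) ^ (2 * d) = q ^ (2 * d) * ((k : ℝ) + 1) ^ (2 * d) := by rw [← mul_pow, hqk]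
    rw [h8, ← mul_assoc (L : ℝ)] at h4
    have h7 : 4 * (((k : ℝ) + 1) * (d * w)) * ((k : ℝ) + 1) ^ (2 * d) < (L * q ^ (2 * d)) * ((k : ℝ) + 1) ^ (2 * d) := by
      exact h4
    exact lt_of_mul_lt_mul_right h7 h5.le
  have h7 : (L * q ^ d / 2) ^ 2 = L * (L * q ^ (2 * d)) / 4 := by
    rw [mul_comm 2 d, pow_mul]
    ring
  rw [h7] at h3
  have h8 : (L : ℝ) * (4 * (((k : ℝ) + 1) * (d * w))) < L * (L * q ^ (2 * d)) := mul_lt_mul_of_pos_left h6 hL'
  linarith

end

end Pool.Agent.W2helper94.SH
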