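import Pool.Agent.W2helper94.SH.Emb
import Pool.Agent.W2helper94.SH.Rand

set_option autoImplicit false

/-!
# The reads of the value bits
-/

open Finset Pool.Agent.Y631.Tr

namespace Pool.Agent.W2helper94.SH

section

variable {n : ℕ} (C : Net (Fin n) Unit Bool)

open Classical in
/-- the number of the wires from the value bit of `p` to the gate `g` -/
noncomputable def rdAt (p : Fin (n / 2)) (g : Fin C.size) : ℕ :=
  (univ.filter (fun a : Fin (C.arity g) => C.src g a = Sum.inl (valBit n p))).card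

/-- the number of the wires from the value bit of `p` to the gates outside of `Z` -/
noncomputable def rd (Z : Finset (Fin C.size)) (p : Fin (n / 2)) : ℕ := ∑ g with g ∉ Z, rdAt C p g

lemma sum_rdAt_le (g : Fin C.size) : ∑ p, rdAt C p g ≤ C.readsAt g := by
  classical
  unfold rdAt Net.readsAt
  rw [← card_biUnion]
  · apply card_le_card
    intro a ha
    rw [mem_biUnion] at ha
    obtain ⟨p, -, h⟩ := ha
    rw [mem_filter] at h ⊢
    refine ⟨mem_univ _, ?_⟩
    rw [h.2]
    rfl
  · intro p _ q _ hpq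
    rw [Function.onFun, Finset.disjoint_left]
    intro a h1 h2
    rw [mem_filter] at h1 h2
    apply hpq
    have := h1.2.symm.trans h2.2
    exact valBit_inj n (Sum.inl_injective this)

lemma sum_rd_le (Z : Finset (Fin C.size)) : ∑ p, rd C Z p ≤ ∑ g with g ∉ Z, C.readsAt g := by
  unfold rd
  rw [sum_comm]
  exact sum_le_sum fun g _ => sum_rdAt_le C g

variable (Z : Finset (Fin C.size)) {S : ℕ} (κ : Fin C.size → Fin S)

open Classical in
/-- the labels of the gates outside of `Z` that read the value bit of `p` -/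
noncomputable def labs (p : Fin (n / 2)) : Finset (Fin S) :=
  (univ.filter (fun g => g ∉ Z ∧ ∃ a, C.src g a = Sum.inl (valBit n p))).image κ

lemma mem_labs {p : Fin (n / 2)} {g : Fin C.size} (hg : g ∉ Z) {a : Fin (C.arity g)}
    (h : C.src g a = Sum.inl (valBit n p)) : κ g ∈ labs C Z κ p := by
  classical
  unfold labs
  rw [mem_image]
  exact ⟨g, mem_filter.2 ⟨mem_univ _, hg, a, h⟩, rfl⟩

lemma card_labs_le (p : Fin (n / 2)) : (labs C Z κ p).card ≤ rd C Z p := by
  classical
  unfold labs rd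
  refine card_image_le.trans ?_
  rw [← filter_filter, card_filter]
  refine sum_le_sum fun g _ => ?_
  by_cases h : ∃ a, C.src g a = Sum.inl (valBit n p)
  · rw [if_pos h]
    obtain ⟨a, ha⟩ := h
    unfold rdAt
    rw [Nat.one_le_iff_ne_zero, card_ne_zero]
    exact ⟨a, mem_filter.2 ⟨mem_univ _, ha⟩⟩
  · rw [if_neg h]
    exact Nat.zero_le _

open Classical in
lemma card_labs_filter (B : Finset (Fin (n / 2))) (o : Fin S) :
    (B.filter (fun p => o ∈ labs C Z κ p)).card ≤ ∑ g with g ∉ Z ∧ κ g = o, C.readsAt g := by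
  have h1 : (B.filter (fun p => o ∈ labs C Z κ p)) ⊆
      (univ.filter (fun g => g ∉ Z ∧ κ g = o)).biUnion
        (fun g => univ.filter (fun p => ∃ a, C.src g a = Sum.inl (valBit n p))) := by
    intro p hp
    rw [mem_filter] at hp
    obtain ⟨-, hp⟩ := hp
    unfold labs at hp
    rw [mem_image] at hp
    obtain ⟨g, hg, hgo⟩ := hp
    rw [mem_filter] at hg
    rw [mem_biUnion]
    exact ⟨g, mem_filter.2 ⟨mem_univ _, hg.2.1, hgo⟩, mem_filter.2 ⟨mem_univ _, hg.2.2⟩⟩
  refine (card_le_card h1).trans (card_biUnion_le.trans (sum_le_sum fun g _ => ?_))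
  refine le_trans ?_ (sum_rdAt_le C g)
  rw [card_filter]
  refine sum_le_sum fun p _ => ?_
  by_cases h : ∃ a, C.src g a = Sum.inl (valBit n p)
  · rw [if_pos h]
    obtain ⟨a, ha⟩ := h
    unfold rdAt
    rw [Nat.one_le_iff_ne_zero, card_ne_zero]
    exact ⟨a, mem_filter.2 ⟨mem_univ _, ha⟩⟩
  · rw [if_neg h]
    exact Nat.zero_le _

end

lemma pow_succ_le (s : ℕ) : (s + 1) ^ s ≤ 4 * s ^ s := by
  rcases Nat.eq_zero_or_pos s with rfl | hs
  · norm_num
  have hs' : (0 : ℝ) < s := by exact_mod_cast hs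
  have h1 : (1 + 1 / (s : ℝ)) ^ s ≤ 4 := by
    have h2 : 1 + 1 / (s : ℝ) ≤ Real.exp (1 / s) := by
      have := Real.add_one_le_exp (1 / (s : ℝ))
      linarith
    calc (1 + 1 / (s : ℝ)) ^ s ≤ (Real.exp (1 / s)) ^ s := pow_le_pow_left₀ (by positivity) h2 _
      _ = Real.exp 1 := by
          rw [← Real.exp_nat_mul]
          congr 1
          field_simp
      _ ≤ 4 := by
          have := Real.exp_one_lt_d9
          linarith
  have h2 : ((s : ℝ) + 1) ^ s ≤ 4 * (s : ℝ) ^ s := by
    have e : (s : ℝ) + 1 = (1 + 1 / (s : ℝ)) * s := by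
      field_simp
    rw [e, mul_pow]
    exact mul_le_mul_of_nonneg_right h1 (by positivity)
  exact_mod_cast h2

lemma pow_succ_le2 (s c : ℕ) : (s + 1) ^ (s * c) ≤ 2 ^ (2 * c) * s ^ (s * c) := by
  calc (s + 1) ^ (s * c) = ((s + 1) ^ s) ^ c := pow_mul _ _ _
    _ ≤ (4 * s ^ s) ^ c := Nat.pow_le_pow_left (pow_succ_le s) c
    _ = 2 ^ (2 * c) * s ^ (s * c) := by
        rw [mul_pow, ← pow_mul, pow_mul 2 2 c]
        norm_num

end Pool.Agent.W2helper94.SH
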