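import Pool.Agent.W2helper94.SH.Light

set_option autoImplicit false

/-!
# Circuits that can be shattered
-/

open Finset Pool.Agent.Y631.Tr

namespace Pool.Agent.W2helper94.SH

/-- The blocks. -/
theorem blocks {n s L w ρ : ℕ} (hs : 1 ≤ s) (C : Net (Fin n) Unit Bool)
    (G Z : Finset (Fin C.size)) (lam : Fin C.size → ℕ) (hadd : ∀ g ∈ Z, AddLE (lam g) (C.op g))
    (b : Bool) (hf : ∀ x, Accepts C G x ↔ wordsFn n x = b)
    {S : ℕ} (κ : Fin C.size → Fin S) (hκ : ∀ h g, C.Joined h g → h ∉ Z → g ∉ Z → κ h = κ g)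
    (hw : ∀ o, ∑ g with g ∉ Z ∧ κ g = o, C.readsAt g ≤ w)
    (hlight : (s + 1) * (L + 1) ≤ (univ.filter (fun p => rd C Z p ≤ 2 * s ^ 2)).card)
    (hcond : 4 * ((s + 1) * (2 * s ^ 2 * w)) * 2 ^ (8 * s) < L) (hρ : ρ * 2 ^ (4 * s + 1) ≤ L) :
    ρ ≤ (∑ g ∈ Z, (1 + (s + 1) * lam g) + 2) * 4 ^ s := by
  classical
  obtain ⟨Lt, hLt⟩ : ∃ Lt, Lt = univ.filter (fun p => rd C Z p ≤ 2 * s ^ 2) := ⟨_, rfl⟩
  rw [← hLt] at hlight
  obtain ⟨e, he⟩ : ∃ e : Fin Lt.card ↪o Fin (n / 2), e = Lt.orderEmbOfFin rfl := ⟨_, rfl⟩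
  have heL : ∀ i, e i ∈ Lt := by
    intro i
    rw [he]
    exact Finset.orderEmbOfFin_mem _ _ _
  have hidx : ∀ (j : Fin (s + 1)) (t : ℕ), t ≤ L → j.1 * (L + 1) + t < Lt.card := by
    intro j t ht
    have hj := j.2
    have : (j.1 + 1) * (L + 1) ≤ (s + 1) * (L + 1) := Nat.mul_le_mul_right _ (by omega)
    have e1 : (j.1 + 1) * (L + 1) = j.1 * (L + 1) + L + 1 := by ring
    omega
  obtain ⟨sp, hsp⟩ : ∃ sp : Fin (s + 1) → Fin (n / 2), sp = fun j => e ⟨j.1 * (L + 1), hidx j 0 (Nat.zero_le _)⟩ := ⟨_, rfl⟩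
  obtain ⟨pos, hpos⟩ : ∃ pos : Fin (s + 1) → Fin L → Fin (n / 2), pos = fun j t =>
    e ⟨j.1 * (L + 1) + (t.1 + 1), hidx j (t.1 + 1) t.2⟩ := ⟨_, rfl⟩
  have hposL : ∀ j t, pos j t ∈ Lt := fun j t => by rw [hpos]; exact heL _
  have h1 : ∀ j t, sp j < pos j t := by
    intro j t
    rw [hsp, hpos]
    apply e.strictMono
    show j.1 * (L + 1) < j.1 * (L + 1) + (t.1 + 1)
    omega
  have hinj : ∀ j, Function.Injective (pos j) := by
    intro j t t' h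
    rw [hpos] at h
    have h5 := e.injective h
    have h6 : j.1 * (L + 1) + (t.1 + 1) = j.1 * (L + 1) + (t'.1 + 1) := congrArg Fin.val h5
    exact Fin.ext (by omega)
  have hstep : ∀ j j' : Fin (s + 1), j < j' → j.1 * (L + 1) + (L + 1) ≤ j'.1 * (L + 1) := by
    intro j j' h
    have h5 : j.1 + 1 ≤ j'.1 := h
    calc j.1 * (L + 1) + (L + 1) = (j.1 + 1) * (L + 1) := by ring
      _ ≤ _ := Nat.mul_le_mul_right _ h5
  have h3 : ∀ j j' t, j < j' → pos j t < sp j' := by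
    intro j j' t h
    rw [hsp, hpos]
    apply e.strictMono
    show j.1 * (L + 1) + (t.1 + 1) < j'.1 * (L + 1)
    have := hstep j j' h
    have := t.2
    omega
  have h4 : ∀ j j', j < j' → sp j < sp j' := by
    intro j j' h
    rw [hsp]
    apply e.strictMono
    show j.1 * (L + 1) < j'.1 * (L + 1)
    have := hstep j j' h
    omega
  obtain ⟨B, hB⟩ : ∃ B : Fin (s + 1) → Finset (Fin (n / 2)), B = fun j => univ.image (pos j) := ⟨_, rfl⟩
  have hBmem : ∀ j p, p ∈ B j → ∃ t, pos j t = p := by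
    intro j p hp
    rw [hB] at hp
    obtain ⟨t, -, h⟩ := mem_image.1 hp
    exact ⟨t, h⟩
  -- the labelling
  have hp2 : (s + 1) ^ (2 * (2 * s ^ 2)) ≤ 2 ^ (8 * s) * s ^ (2 * (2 * s ^ 2)) := by
    have h5 := pow_succ_le2 s (4 * s)
    have e1 : s * (4 * s) = 2 * (2 * s ^ 2) := by ring
    have e2 : 2 * (4 * s) = 8 * s := by ring
    rw [e1, e2] at h5
    exact h5
  have hp1 : (s + 1) ^ (2 * s ^ 2) ≤ 2 ^ (4 * s) * s ^ (2 * s ^ 2) := by
    have h5 := pow_succ_le2 s (2 * s)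
    have e1 : s * (2 * s) = 2 * s ^ 2 := by ring
    have e2 : 2 * (2 * s) = 4 * s := by ring
    rw [e1, e2] at h5
    exact h5
  have hlab := exists_labels s (2 * s ^ 2) w L (labs C Z κ) B (by
      intro j v hv
      obtain ⟨t, rfl⟩ := hBmem j v hv
      have h5 := hposL j t
      rw [hLt, mem_filter] at h5
      exact (card_labs_le C Z κ _).trans h5.2) (by
      intro j
      rw [hB]
      show (univ.image (pos j)).card = L
      rw [card_image_of_injective _ (hinj j), card_univ, Fintype.card_fin]) (by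
      intro j o
      refine le_trans ?_ (hw o)
      have := card_labs_filter C Z κ (B j) o
      convert this) (by
      have h5 : 0 < s ^ (2 * (2 * s ^ 2)) := by positivity
      calc 4 * ((s + 1) * (2 * s ^ 2 * w)) * (s + 1) ^ (2 * (2 * s ^ 2)) ≤
            4 * ((s + 1) * (2 * s ^ 2 * w)) * (2 ^ (8 * s) * s ^ (2 * (2 * s ^ 2))) := Nat.mul_le_mul_left _ hp2
        _ = (4 * ((s + 1) * (2 * s ^ 2 * w)) * 2 ^ (8 * s)) * s ^ (2 * (2 * s ^ 2)) := by ring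
        _ < L * s ^ (2 * (2 * s ^ 2)) := Nat.mul_lt_mul_of_pos_right hcond h5)
  obtain ⟨χ, hχ⟩ := hlab
  have hcard : ∀ j, ρ ≤ ((B j).filter (fun v => ∀ o ∈ labs C Z κ v, χ o ≠ j)).card := by
    intro j
    obtain ⟨N, hN⟩ : ∃ N, N = ((B j).filter (fun v => ∀ o ∈ labs C Z κ v, χ o ≠ j)).card := ⟨_, rfl⟩
    have h5 := hχ j
    have h6 : L * s ^ (2 * s ^ 2) ≤ 2 * (N * (s + 1) ^ (2 * s ^ 2)) := by
      rw [hN]
      convert h5
    rw [← hN]
    have h7 : L * s ^ (2 * s ^ 2) ≤ (N * 2 ^ (4 * s + 1)) * s ^ (2 * s ^ 2) := by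
      calc L * s ^ (2 * s ^ 2) ≤ 2 * (N * (s + 1) ^ (2 * s ^ 2)) := h6
        _ ≤ 2 * (N * (2 ^ (4 * s) * s ^ (2 * s ^ 2))) :=
            Nat.mul_le_mul_left _ (Nat.mul_le_mul_left _ hp1)
        _ = (N * 2 ^ (4 * s + 1)) * s ^ (2 * s ^ 2) := by
            rw [pow_succ]
            ring
    have h8 : L ≤ N * 2 ^ (4 * s + 1) := Nat.le_of_mul_le_mul_right h7 (by positivity)
    exact Nat.le_of_mul_le_mul_right (hρ.trans h8) (by positivity)
  have hsub : ∀ j, ∃ A ⊆ (B j).filter (fun v => ∀ o ∈ labs C Z κ v, χ o ≠ j), A.card = ρ := fun j =>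
    Finset.exists_subset_card_eq (hcard j)
  choose A hA1 hA2 using hsub
  obtain ⟨lp, hlp⟩ : ∃ lp : Fin (s + 1) → Fin ρ → Fin (n / 2), lp = fun j i => (A j).orderEmbOfFin (hA2 j) i := ⟨_, rfl⟩
  have hlpA : ∀ j i, lp j i ∈ A j := by
    intro j i
    rw [hlp]
    exact Finset.orderEmbOfFin_mem _ _ _
  have hlpB : ∀ j i, ∃ t, pos j t = lp j i := by
    intro j i
    have h5 := hA1 j (hlpA j i)
    rw [mem_filter] at h5
    exact hBmem j _ h5.1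
  have hlpχ : ∀ j i, ∀ o ∈ labs C Z κ (lp j i), χ o ≠ j := by
    intro j i
    have h5 := hA1 j (hlpA j i)
    rw [mem_filter] at h5
    exact h5.2
  refine emb_bound hs C G Z lam hadd b hf sp lp ?_ ?_ ?_ h4 (fun g => χ (κ g)) ?_ ?_
  · intro j i
    obtain ⟨t, ht⟩ := hlpB j i
    rw [← ht]
    exact h1 j t
  · intro j i i' h
    rw [hlp]
    exact ((A j).orderEmbOfFin (hA2 j)).strictMono h
  · intro j j' i h
    obtain ⟨t, ht⟩ := hlpB j i
    rw [← ht]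
    exact h3 j j' t h
  · intro h g hJ hh hg
    show χ (κ h) = χ (κ g)
    rw [hκ h g hJ hh hg]
  · intro g hg a j t hs
    exact hlpχ j t _ (mem_labs C Z κ hg hs)

/-- half of the value bits are read by few wires -/
lemma light_card {n s : ℕ} (C : Net (Fin n) Unit Bool) (Z : Finset (Fin C.size))
    (hR : ∑ g with g ∉ Z, C.readsAt g ≤ s ^ 2 * (n / 2)) (hn : 0 < n / 2) :
    n / 2 < 2 * (univ.filter (fun p => rd C Z p ≤ 2 * s ^ 2)).card := by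
  classical
  have h1 : (univ.filter (fun p => ¬ rd C Z p ≤ 2 * s ^ 2)).card * (2 * s ^ 2 + 1) ≤ s ^ 2 * (n / 2) := by
    refine le_trans ?_ ((sum_rd_le C Z).trans hR)
    calc (univ.filter (fun p => ¬ rd C Z p ≤ 2 * s ^ 2)).card * (2 * s ^ 2 + 1) =
          ∑ _p ∈ univ.filter (fun p => ¬ rd C Z p ≤ 2 * s ^ 2), (2 * s ^ 2 + 1) := by
          rw [sum_const, smul_eq_mul]
      _ ≤ ∑ p ∈ univ.filter (fun p => ¬ rd C Z p ≤ 2 * s ^ 2), rd C Z p := by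
          refine sum_le_sum fun p hp => ?_
          rw [mem_filter] at hp
          have := hp.2
          omega
      _ ≤ ∑ p, rd C Z p := sum_le_sum_of_subset (filter_subset _ _)
  have h2 := Finset.card_filter_add_card_filter_not (s := (univ : Finset (Fin (n / 2)))) (fun p => rd C Z p ≤ 2 * s ^ 2)
  rw [card_univ, Fintype.card_fin] at h2
  by_contra hcon
  push Not at hcon
  obtain ⟨H, hH⟩ : ∃ H, H = (univ.filter (fun p => ¬ rd C Z p ≤ 2 * s ^ 2)).card := ⟨_, rfl⟩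
  rw [← hH] at h1 h2
  have h3 : n / 2 ≤ 2 * H := by omega
  have h4 : (n / 2) * (2 * s ^ 2 + 1) ≤ 2 * (s ^ 2 * (n / 2)) := by
    calc (n / 2) * (2 * s ^ 2 + 1) ≤ 2 * H * (2 * s ^ 2 + 1) := Nat.mul_le_mul_right _ h3
      _ = 2 * (H * (2 * s ^ 2 + 1)) := by ring
      _ ≤ _ := Nat.mul_le_mul_left _ h1
  have h5 : (n / 2) * (2 * s ^ 2 + 1) = 2 * (s ^ 2 * (n / 2)) + n / 2 := by ring
  omega

/-- **Circuits that can be shattered.** -/
theorem main1 {n s w : ℕ} (hs : 1 ≤ s) (C : Net (Fin n) Unit Bool)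
    (G Z : Finset (Fin C.size)) (lam : Fin C.size → ℕ) (hadd : ∀ g ∈ Z, AddLE (lam g) (C.op g))
    (b : Bool) (hf : ∀ x, Accepts C G x ↔ wordsFn n x = b)
    (hR : ∑ g with g ∉ Z, C.readsAt g ≤ s ^ 2 * (n / 2))
    {S : ℕ} (κ : Fin C.size → Fin S) (hκ : ∀ h g, C.Joined h g → h ∉ Z → g ∉ Z → κ h = κ g)
    (hw : ∀ o, ∑ g with g ∉ Z ∧ κ g = o, C.readsAt g ≤ w) (hn : 2 ^ (20 * s) * (w + 1) ≤ n / 2) :
    n / 2 ≤ 2 ^ (13 * s) * (∑ g ∈ Z, (1 + lam g) + 1) := by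
  obtain ⟨m, hm⟩ : ∃ m, m = n / 2 := ⟨_, rfl⟩
  obtain ⟨M, hM⟩ : ∃ M, M = (univ.filter (fun p => rd C Z p ≤ 2 * s ^ 2)).card := ⟨_, rfl⟩
  have hs2 : s + 1 ≤ 2 ^ s := Nat.lt_two_pow_self
  have hsq : s ^ 2 ≤ 2 ^ (2 * s) := by
    calc s ^ 2 ≤ (2 ^ s) ^ 2 := Nat.pow_le_pow_left (by omega) 2
      _ = 2 ^ (2 * s) := by rw [← pow_mul]; ring
  have hbig : 2 ^ 20 ≤ m := by
    calc 2 ^ 20 ≤ 2 ^ (20 * s) := Nat.pow_le_pow_right (by norm_num) (by omega)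
      _ ≤ 2 ^ (20 * s) * (w + 1) := Nat.le_mul_of_pos_right _ (by omega)
      _ ≤ m := by rw [hm]; exact hn
  have hl := light_card C Z hR (by omega)
  rw [← hM, ← hm] at hl
  -- the length of the blocks
  obtain ⟨Q, hQ⟩ : ∃ Q, Q = M / (s + 1) := ⟨_, rfl⟩
  have hQ1 : (s + 1) * Q ≤ M := by rw [hQ]; exact Nat.mul_div_le M (s + 1)
  have hQ2 : M < (s + 1) * (Q + 1) := by
    have := Nat.lt_mul_div_succ M (show 0 < s + 1 by omega)
    rw [hQ]
    exact this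
  have hms : 2 ^ (13 * s) * (8 * (s + 1)) ≤ m := by
    calc 2 ^ (13 * s) * (8 * (s + 1)) ≤ 2 ^ (13 * s) * (2 ^ (3 * s) * 2 ^ s) := by
          refine Nat.mul_le_mul_left _ (Nat.mul_le_mul ?_ hs2)
          calc 8 = 2 ^ 3 := by norm_num
            _ ≤ 2 ^ (3 * s) := Nat.pow_le_pow_right (by norm_num) (by omega)
      _ = 2 ^ (17 * s) := by rw [← pow_add, ← pow_add]; congr 1; ring
      _ ≤ 2 ^ (20 * s) := Nat.pow_le_pow_right (by norm_num) (by omega)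
      _ ≤ 2 ^ (20 * s) * (w + 1) := Nat.le_mul_of_pos_right _ (by omega)
      _ ≤ m := by rw [hm]; exact hn
  have hms' : 8 * (s + 1) ≤ m := le_trans (Nat.le_mul_of_pos_left _ (by positivity)) hms
  -- `m ≤ 4 (s + 1) L` for `L = Q - 1`
  have hQpos : 3 ≤ Q := by
    by_contra hcon
    have h5 : Q + 1 ≤ 3 := by omega
    have h6 : (s + 1) * (Q + 1) ≤ (s + 1) * 3 := Nat.mul_le_mul_left _ h5
    omega
  obtain ⟨L, hL⟩ : ∃ L, L + 1 = Q := ⟨Q - 1, by omega⟩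
  have hmL : m ≤ 4 * (s + 1) * L := by
    have h5 : (s + 1) * (Q + 1) = (s + 1) * L + 2 * (s + 1) := by
      rw [← hL]
      ring
    have h6 : 4 * (s + 1) * L = 4 * ((s + 1) * L) := by ring
    omega
  have hcond : 4 * ((s + 1) * (2 * s ^ 2 * w)) * 2 ^ (8 * s) < L := by
    by_contra hcon
    push Not at hcon
    have h5 : m ≤ 2 ^ (20 * s) * w := by
      calc m ≤ 4 * (s + 1) * L := hmL
        _ ≤ 4 * (s + 1) * (4 * ((s + 1) * (2 * s ^ 2 * w)) * 2 ^ (8 * s)) := Nat.mul_le_mul_left _ hcon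
        _ = (32 * s ^ 2 * ((s + 1) * (s + 1)) * 2 ^ (8 * s)) * w := by ring
        _ ≤ (2 ^ (5 * s) * 2 ^ (2 * s) * (2 ^ s * 2 ^ s) * 2 ^ (8 * s)) * w := by
            have h32 : 32 ≤ 2 ^ (5 * s) := by
              calc 32 = 2 ^ 5 := by norm_num
                _ ≤ 2 ^ (5 * s) := Nat.pow_le_pow_right (by norm_num) (by omega)
            gcongr
        _ = 2 ^ (17 * s) * w := by
            rw [← pow_add, ← pow_add, ← pow_add, ← pow_add]
            congr 2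
            ring
        _ ≤ 2 ^ (20 * s) * w := Nat.mul_le_mul_right _ (Nat.pow_le_pow_right (by norm_num) (by omega))
    have h6 : 2 ^ (20 * s) * (w + 1) = 2 ^ (20 * s) * w + 2 ^ (20 * s) := by ring
    have h7 : 0 < 2 ^ (20 * s) := by positivity
    omega
  obtain ⟨ρ, hρ⟩ : ∃ ρ, ρ = L / 2 ^ (4 * s + 1) := ⟨_, rfl⟩
  have hρ1 : ρ * 2 ^ (4 * s + 1) ≤ L := by rw [hρ]; exact Nat.div_mul_le_self _ _
  have hρ2 : L < (ρ + 1) * 2 ^ (4 * s + 1) := by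
    have := Nat.lt_mul_div_succ L (show 0 < 2 ^ (4 * s + 1) by positivity)
    rw [hρ, mul_comm]
    exact this
  have hfin := blocks hs C G Z lam hadd b hf κ hκ hw (L := L) (ρ := ρ) (by
    rw [hL, ← hM]
    exact hQ1) hcond hρ1
  obtain ⟨Λ, hΛ⟩ : ∃ Λ, Λ = ∑ g ∈ Z, (1 + lam g) := ⟨_, rfl⟩
  have hΛ1 : ∑ g ∈ Z, (1 + (s + 1) * lam g) ≤ (s + 1) * Λ := by
    rw [hΛ, mul_sum]
    refine sum_le_sum fun g _ => ?_
    have : (s + 1) * (1 + lam g) = s + (1 + (s + 1) * lam g) := by ring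
    omega
  have h4 : 1 ≤ 4 ^ s := Nat.one_le_pow _ _ (by norm_num)
  have h5 : ρ + 1 ≤ 3 * (s + 1) * (Λ + 1) * 2 ^ (2 * s) := by
    have e4 : 4 ^ s = 2 ^ (2 * s) := by rw [pow_mul]; norm_num
    rw [← e4]
    calc ρ + 1 ≤ (∑ g ∈ Z, (1 + (s + 1) * lam g) + 2) * 4 ^ s + 4 ^ s := Nat.add_le_add hfin h4
      _ ≤ ((s + 1) * Λ + 2) * 4 ^ s + 4 ^ s :=
          Nat.add_le_add_right (Nat.mul_le_mul_right _ (Nat.add_le_add_right hΛ1 _)) _
      _ = ((s + 1) * Λ + 3) * 4 ^ s := by ring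
      _ ≤ (3 * (s + 1) * (Λ + 1)) * 4 ^ s := by
          refine Nat.mul_le_mul_right _ ?_
          have : 3 * (s + 1) * (Λ + 1) = (s + 1) * Λ + 3 + (2 * ((s + 1) * Λ) + 3 * s) := by ring
          omega
  rw [← hm, ← hΛ]
  calc m ≤ 4 * (s + 1) * L := hmL
    _ ≤ 4 * (s + 1) * ((3 * (s + 1) * (Λ + 1) * 2 ^ (2 * s)) * 2 ^ (4 * s + 1)) :=
        Nat.mul_le_mul_left _ (hρ2.le.trans (Nat.mul_le_mul_right _ h5))
    _ = 24 * ((s + 1) * (s + 1)) * (2 ^ (2 * s) * 2 ^ (4 * s)) * (Λ + 1) := by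
        rw [pow_succ]
        ring
    _ ≤ 2 ^ (5 * s) * (2 ^ s * 2 ^ s) * (2 ^ (2 * s) * 2 ^ (4 * s)) * (Λ + 1) := by
        have h24 : 24 ≤ 2 ^ (5 * s) := by
          calc 24 ≤ 2 ^ 5 := by norm_num
            _ ≤ 2 ^ (5 * s) := Nat.pow_le_pow_right (by norm_num) (by omega)
        gcongr
    _ = 2 ^ (13 * s) * (Λ + 1) := by
        rw [← pow_add, ← pow_add, ← pow_add, ← pow_add]
        congr 2
        ring

end Pool.Agent.W2helper94.SH
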