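import Pool.Agent.W2helper94.SH.Main1
import Pool.Agent.Y631.TrMain

set_option autoImplicit false

/-!
# Shattering by the treewidth
-/

open Finset Pool.Agent.Y631.Tr

namespace Pool.Agent.W2helper94.SH

/-- The deletion of the gates of `Z` shatters the circuit into parts with at most `w` reads: the other
gates have labels, gates with different labels are not joined, and the gates with the label `c`
have at most `w` wires from inputs, for every label `c`.  (Equivalently: every connected component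
of the graph of the gates outside of `Z` has at most `w` wires from inputs.) -/
def Shatters {ι ω α : Type} (C : Net ι ω α) (Z : Finset (Fin C.size)) (w : ℕ) : Prop :=
  ∃ κ : Fin C.size → ℕ, (∀ h g, C.Joined h g → h ∉ Z → g ∉ Z → κ h = κ g) ∧
    ∀ c, ∑ g with g ∉ Z ∧ κ g = c, C.readsAt g ≤ w

/-- **Circuits that can be shattered.** -/
theorem main1' {n s w : ℕ} (hs : 1 ≤ s) (C : Net (Fin n) Unit Bool)
    (G Z : Finset (Fin C.size)) (lam : Fin C.size → ℕ) (hadd : ∀ g ∈ Z, AddLE (lam g) (C.op g))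
    (b : Bool) (hf : ∀ x, Accepts C G x ↔ wordsFn n x = b)
    (hR : ∑ g with g ∉ Z, C.readsAt g ≤ s ^ 2 * (n / 2)) (hZ : Shatters C Z w)
    (hn : 2 ^ (20 * s) * (w + 1) ≤ n / 2) :
    n / 2 ≤ 2 ^ (13 * s) * (∑ g ∈ Z, (1 + lam g) + 1) := by
  classical
  obtain ⟨κ, h1, h2⟩ := hZ
  obtain ⟨S, hS⟩ : ∃ S, S = (∑ g, κ g) + 1 := ⟨_, rfl⟩
  have hlt : ∀ g, κ g < S := by
    intro g
    have : κ g ≤ ∑ g, κ g := single_le_sum (fun _ _ => Nat.zero_le _) (mem_univ g)
    omega
  refine main1 hs C G Z lam hadd b hf hR (S := S) (fun g => ⟨κ g, hlt g⟩) ?_ ?_ hn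
  · intro h g hJ hh hg
    exact Fin.ext (h1 h g hJ hh hg)
  · intro o
    refine le_trans (le_of_eq ?_) (h2 o.1)
    refine sum_congr ?_ fun _ _ => rfl
    ext g
    simp only [mem_filter, mem_univ, true_and]
    constructor
    · rintro ⟨h3, h4⟩
      exact ⟨h3, congrArg Fin.val h4⟩
    · rintro ⟨h3, h4⟩
      exact ⟨h3, Fin.ext h4⟩

/-- **Circuits of small treewidth can be shattered.** -/
theorem shatter_tw {ι ω α : Type} (C : Net ι ω α) (t : ℕ) (h : C.TreewidthLE t) (w : ℕ) :
    ∃ Z : Finset (Fin C.size), Shatters C Z w ∧ w * Z.card ≤ (t + 1) * (11 * C.reads + w) := by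
  classical
  obtain ⟨T, par, bag, h1, h2, h3, h4⟩ := h
  choose home hh huniq using h3
  have hh' : ∀ v i, v ∈ bag i → i = home v ∨ (i ≠ 0 ∧ v ∈ bag (par i)) := by
    intro v i hi
    by_contra hcon
    push Not at hcon
    obtain ⟨hne, h5⟩ := hcon
    apply hne
    apply huniq v i
    refine ⟨hi, ?_⟩
    by_cases h0 : i = 0
    · exact Or.inl h0
    · exact Or.inr (h5 h0)
  obtain ⟨E, hE⟩ : ∃ E : Fin C.size → Fin C.size → Prop, E = fun h g => C.Joined h g ∨ C.Joined g h := ⟨_, rfl⟩
  have hEb : ∀ h g, E h g → ∃ i, h ∈ bag i ∧ g ∈ bag i := by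
    intro h g hg
    rw [hE] at hg
    rcases hg with hg | hg
    · exact h4 h g hg
    · obtain ⟨i, h5, h6⟩ := h4 g h hg
      exact ⟨i, h6, h5⟩
  obtain ⟨L, h5, h6, h7⟩ := region par bag h1 home hh' E hEb (fun v => (hh v).1) C.readsAt w t
    h2 _ univ rfl (fun _ _ _ => mem_univ _)
  have h8 : marks par (univ : Finset (Fin (T + 1))) = ∅ := by
    unfold marks
    apply Finset.filter_false_of_mem
    intro x _
    simp
  have h9 : wt home C.readsAt univ = C.reads := by
    unfold wt Net.reads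
    apply Finset.sum_congr _ (fun _ _ => rfl)
    simp
  rw [h8, h9] at h7
  have h7' : w * cost L ≤ 11 * C.reads + w := by simpa using h7
  -- the boundaries
  have hZ : ∀ L : List (Finset (Fin C.size) × Finset (Fin C.size) × ℕ),
      (∀ p ∈ L, p.2.1.card ≤ p.2.2 * (t + 1)) →
      ∃ Z : Finset (Fin C.size), (∀ p ∈ L, p.2.1 ⊆ Z) ∧ (∀ g ∈ Z, ∃ p ∈ L, g ∈ p.2.1) ∧ Z.card ≤ (t + 1) * cost L := by
    intro L
    induction L with
    | nil => intro _; exact ⟨∅, by simp, by simp, by simp⟩
    | cons p L ih =>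
      intro hp
      obtain ⟨Z, hZ1, hZ3, hZ2⟩ := ih fun q hq => hp q (List.mem_cons_of_mem _ hq)
      refine ⟨p.2.1 ∪ Z, ?_, ?_, ?_⟩
      · intro q hq
        rcases List.mem_cons.1 hq with rfl | hq
        · exact subset_union_left
        · exact (hZ1 q hq).trans subset_union_right
      · intro g hg
        rcases mem_union.1 hg with hg | hg
        · exact ⟨p, List.mem_cons_self, hg⟩
        · obtain ⟨q, hq, hgq⟩ := hZ3 g hg
          exact ⟨q, List.mem_cons_of_mem _ hq, hgq⟩
      · have e1 : cost (p :: L) = (p.2.2 + 1) + cost L := by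
          unfold cost
          rw [List.map_cons, List.sum_cons]
        rw [e1]
        calc (p.2.1 ∪ Z).card ≤ p.2.1.card + Z.card := card_union_le _ _
          _ ≤ p.2.2 * (t + 1) + (t + 1) * cost L := Nat.add_le_add (hp p List.mem_cons_self) hZ2
          _ ≤ (t + 1) * ((p.2.2 + 1) + cost L) := by
              have : (t + 1) * ((p.2.2 + 1) + cost L) = p.2.2 * (t + 1) + (t + 1) * cost L + (t + 1) := by ring
              omega
  obtain ⟨Z, hZ1, -, hZ2⟩ := hZ L fun p hp => (h5 p hp).2.1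
  refine ⟨Z, ?_, ?_⟩
  · refine ⟨fun g => L.findIdx (fun p => decide (g ∈ p.1)), ?_, ?_⟩
    · intro h g hJ hhZ hgZ
      have key : ∀ p ∈ L, (h ∈ p.1 ↔ g ∈ p.1) := by
        intro p hp
        have hcl := (h5 p hp).1
        constructor
        · intro hh1
          rcases hcl g h (by rw [hE]; exact Or.inr hJ) hh1 with h10 | h10
          · exact h10
          · exact absurd (hZ1 p hp h10) hgZ
        · intro hg1
          rcases hcl h g (by rw [hE]; exact Or.inl hJ) hg1 with h10 | h10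
          · exact h10
          · exact absurd (hZ1 p hp h10) hhZ
      have key2 : ∀ L' : List (Finset (Fin C.size) × Finset (Fin C.size) × ℕ), (∀ p ∈ L', p ∈ L) →
          L'.findIdx (fun p => decide (h ∈ p.1)) = L'.findIdx (fun p => decide (g ∈ p.1)) := by
        intro L'
        induction L' with
        | nil => intro _; rfl
        | cons p L' ih =>
          intro hp
          rw [List.findIdx_cons, List.findIdx_cons, ih fun q hq => hp q (List.mem_cons_of_mem _ hq)]
          have e1 : decide (h ∈ p.1) = decide (g ∈ p.1) := decide_eq_decide.2 (key p (hp p List.mem_cons_self))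
          rw [e1]
      exact key2 L fun _ hp => hp
    · intro c
      by_cases hc : c < L.length
      · refine le_trans ?_ (h5 (L[c]'hc) (List.getElem_mem hc)).2.2
        apply sum_le_sum_of_subset
        intro g hg
        rw [mem_filter] at hg
        obtain ⟨-, -, hgc⟩ := hg
        replace hgc : L.findIdx (fun p => decide (g ∈ p.1)) = c := hgc
        have h10 : L.findIdx (fun p => decide (g ∈ p.1)) < L.length := by rw [hgc]; exact hc
        have h11 := List.findIdx_getElem (w := h10)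
        have h12 : g ∈ (L[L.findIdx (fun p => decide (g ∈ p.1))]'h10).1 := by simpa using h11
        have h13 : L[L.findIdx (fun p => decide (g ∈ p.1))]'h10 = L[c]'hc := by
          congr 1
        rw [h13] at h12
        exact h12
      · have h10 : (univ.filter (fun g => g ∉ Z ∧ L.findIdx (fun p => decide (g ∈ p.1)) = c)) = ∅ := by
          apply Finset.filter_false_of_mem
          rintro g - ⟨hgZ, hgc⟩
          obtain ⟨p, hp, hgp⟩ := h6 g (mem_univ _)
          have hgp1 : g ∈ p.1 := by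
            rcases hgp with h | h
            · exact h
            · exact absurd (hZ1 p hp h) hgZ
          have : L.findIdx (fun p => decide (g ∈ p.1)) < L.length := by
            rw [List.findIdx_lt_length]
            exact ⟨p, hp, by simpa using hgp1⟩
          omega
        have h11 : ∑ g with g ∉ Z ∧ L.findIdx (fun p => decide (g ∈ p.1)) = c, C.readsAt g = 0 := by
          rw [h10, sum_empty]
        rw [h11]
        exact Nat.zero_le _
  · calc w * Z.card ≤ w * ((t + 1) * cost L) := Nat.mul_le_mul_left _ hZ2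
      _ = (t + 1) * (w * cost L) := by ring
      _ ≤ _ := Nat.mul_le_mul_left _ h7'

/-- **Circuits that can be shattered.** -/
theorem main1_final {n s w : ℕ} (hs : 1 ≤ s) (C : Net (Fin n) Unit Bool)
    (G Z : Finset (Fin C.size)) (lam : Fin C.size → ℕ) (hadd : ∀ g ∈ Z, AddLE (lam g) (C.op g))
    (b : Bool) (hf : ∀ x, Accepts C G x ↔ wordsFn n x = b) (hZ : Shatters C Z w)
    (hn : 2 ^ (20 * s) * (w + ∑ g ∈ Z, (1 + lam g) + 1) ≤ n / 2) :
    s ^ 2 * (n / 2) < ∑ g with g ∉ Z, C.readsAt g := by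
  by_contra hcon
  push Not at hcon
  obtain ⟨Λ, hΛ⟩ : ∃ Λ, Λ = ∑ g ∈ Z, (1 + lam g) := ⟨_, rfl⟩
  rw [← hΛ] at hn
  have h1 := main1' hs C G Z lam hadd b hf hcon hZ (le_trans (Nat.mul_le_mul_left _ (by omega)) hn)
  rw [← hΛ] at h1
  have h2 : 2 ^ (13 * s) * (Λ + 1) < 2 ^ (20 * s) * (Λ + 1) :=
    Nat.mul_lt_mul_of_pos_right (Nat.pow_lt_pow_right (by norm_num) (by omega)) (by omega)
  have h3 : 2 ^ (20 * s) * (Λ + 1) ≤ 2 ^ (20 * s) * (w + Λ + 1) := Nat.mul_le_mul_left _ (by omega)
  omega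

/-- **Circuits of small treewidth.** -/
theorem main2 {n s t l : ℕ} (hs : 1 ≤ s) (C : Net (Fin n) Unit Bool) (hC : ∀ g, AddLE l (C.op g))
    (G : Finset (Fin C.size)) (b : Bool) (hf : ∀ x, Accepts C G x ↔ wordsFn n x = b)
    (hR : C.reads ≤ s ^ 2 * (n / 2)) (ht : C.TreewidthLE t) :
    n / 2 ≤ 2 ^ (41 * s) * ((l + 1) * (t + 1)) := by
  obtain ⟨m, hm⟩ : ∃ m, m = n / 2 := ⟨_, rfl⟩
  rw [← hm] at hR ⊢
  obtain ⟨W, hW⟩ : ∃ W, W = 2 ^ (20 * s) := ⟨_, rfl⟩
  have hW0 : 0 < W := by rw [hW]; positivity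
  have hWW : 2 * W ≤ 2 ^ (41 * s) := by
    calc 2 * W = 2 ^ (20 * s + 1) := by rw [hW, pow_succ]; ring
      _ ≤ 2 ^ (41 * s) := Nat.pow_le_pow_right (by norm_num) (by omega)
  have hlt : 0 < (l + 1) * (t + 1) := by positivity
  by_cases hsmall : m < 2 * W
  · calc m ≤ 2 * W := hsmall.le
      _ ≤ 2 ^ (41 * s) := hWW
      _ ≤ _ := Nat.le_mul_of_pos_right _ hlt
  push Not at hsmall
  obtain ⟨w, hw⟩ : ∃ w, w + 1 = m / W := by
    have : 2 ≤ m / W := (Nat.le_div_iff_mul_le hW0).2 hsmall
    exact ⟨m / W - 1, by omega⟩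
  have hw1 : 1 ≤ w := by
    have : 2 ≤ m / W := (Nat.le_div_iff_mul_le hW0).2 hsmall
    omega
  have hwm : W * (w + 1) ≤ m := by rw [hw]; exact Nat.mul_div_le m W
  have hmw : m ≤ 3 * (W * w) := by
    have h1 := Nat.lt_mul_div_succ m hW0
    rw [← hw] at h1
    have h2 : W * (w + 1 + 1) = W * w + 2 * W := by ring
    have h3 : W * 1 ≤ W * w := Nat.mul_le_mul_left _ hw1
    omega
  obtain ⟨Z, hZ, hZc⟩ := shatter_tw C t ht w
  have hR' : ∑ g with g ∉ Z, C.readsAt g ≤ s ^ 2 * m := by
    refine le_trans ?_ hR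
    unfold Net.reads
    exact sum_le_sum_of_subset (filter_subset _ _)
  have h1 := main1' hs C G Z (fun _ => l) (fun g _ => hC g) b hf (by rw [← hm]; exact hR') hZ
    (by rw [← hm, ← hW]; exact hwm)
  rw [← hm, sum_const, smul_eq_mul] at h1
  -- the size of `Z`
  have h2 : w * Z.card ≤ w * ((t + 1) * (33 * s ^ 2 * W + 1)) := by
    calc w * Z.card ≤ (t + 1) * (11 * C.reads + w) := hZc
      _ ≤ (t + 1) * (11 * (s ^ 2 * (3 * (W * w))) + w) := by
          refine Nat.mul_le_mul_left _ (Nat.add_le_add_right (Nat.mul_le_mul_left _ ?_) _)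
          exact hR.trans (Nat.mul_le_mul_left _ hmw)
      _ = w * ((t + 1) * (33 * s ^ 2 * W + 1)) := by ring
  have h3 : Z.card ≤ (t + 1) * (33 * s ^ 2 * W + 1) := Nat.le_of_mul_le_mul_left h2 hw1
  have hsq : s ^ 2 ≤ 2 ^ (2 * s) := by
    have hs2 : s < 2 ^ s := Nat.lt_two_pow_self
    calc s ^ 2 ≤ (2 ^ s) ^ 2 := Nat.pow_le_pow_left hs2.le 2
      _ = 2 ^ (2 * s) := by rw [← pow_mul]; ring
  have hs1 : 1 ≤ s ^ 2 := Nat.one_le_pow _ _ hs
  have h4 : Z.card + 1 ≤ (t + 1) * (35 * s ^ 2 * W) := by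
    have h5 : 1 ≤ s ^ 2 * W := Nat.mul_pos hs1 hW0
    calc Z.card + 1 ≤ (t + 1) * (33 * s ^ 2 * W + 1) + (t + 1) := by omega
      _ = (t + 1) * (33 * (s ^ 2 * W) + 2) := by ring
      _ ≤ (t + 1) * (33 * (s ^ 2 * W) + 2 * (s ^ 2 * W)) := Nat.mul_le_mul_left _ (by omega)
      _ = _ := by ring
  have h6 : Z.card * (1 + l) + 1 ≤ (l + 1) * (Z.card + 1) := by
    have : (l + 1) * (Z.card + 1) = Z.card * (1 + l) + 1 + l := by ring
    omega
  calc m ≤ 2 ^ (13 * s) * (Z.card * (1 + l) + 1) := h1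
    _ ≤ 2 ^ (13 * s) * ((l + 1) * (Z.card + 1)) := Nat.mul_le_mul_left _ h6
    _ ≤ 2 ^ (13 * s) * ((l + 1) * ((t + 1) * (35 * s ^ 2 * W))) :=
        Nat.mul_le_mul_left _ (Nat.mul_le_mul_left _ h4)
    _ = (2 ^ (13 * s) * (35 * s ^ 2 * 2 ^ (20 * s))) * ((l + 1) * (t + 1)) := by rw [hW]; ring
    _ ≤ (2 ^ (13 * s) * (2 ^ (6 * s) * 2 ^ (2 * s) * 2 ^ (20 * s))) * ((l + 1) * (t + 1)) := by
        have h35 : 35 ≤ 2 ^ (6 * s) := by
          calc 35 ≤ 2 ^ 6 := by norm_num
            _ ≤ 2 ^ (6 * s) := Nat.pow_le_pow_right (by norm_num) (by omega)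
        gcongr
    _ = 2 ^ (41 * s) * ((l + 1) * (t + 1)) := by
        rw [← pow_add, ← pow_add, ← pow_add]
        congr 2
        ring

/-- **Circuits of small treewidth.** -/
theorem main2_final {n s t l : ℕ} (hs : 1 ≤ s) (C : Net (Fin n) Unit Bool) (hC : ∀ g, AddLE l (C.op g))
    (G : Finset (Fin C.size)) (b : Bool) (hf : ∀ x, Accepts C G x ↔ wordsFn n x = b)
    (ht : C.TreewidthLE t) (hn : 2 ^ (42 * s) * ((l + 1) * (t + 1)) ≤ n / 2) :
    s ^ 2 * (n / 2) < C.reads := by
  by_contra hcon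
  push Not at hcon
  have h1 := main2 hs C hC G b hf hcon ht
  have h2 : 2 ^ (41 * s) * ((l + 1) * (t + 1)) < 2 ^ (42 * s) * ((l + 1) * (t + 1)) :=
    Nat.mul_lt_mul_of_pos_right (Nat.pow_lt_pow_right (by norm_num) (by omega)) (by positivity)
  omega

/-- Gates of fan-in at most `l`, and symmetric gates of fan-in less than `2 ^ l`. -/
theorem addLE_of {a l : ℕ} (F : (Fin a → Bool) → Bool)
    (h : a ≤ l ∨ (a < 2 ^ l ∧ ∀ u v : Fin a → Bool,
      (univ.filter (fun i => u i = true)).card = (univ.filter (fun i => v i = true)).card → F u = F v)) :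
    AddLE l F := by
  classical
  rcases h with h | ⟨h, hs⟩
  · refine ⟨Fin a → ZMod 2, inferInstance, inferInstance, fun i => Pi.single i 1, ?_, ?_⟩
    · rw [Fintype.card_fun, ZMod.card, Fintype.card_fin]
      exact Nat.pow_le_pow_right (by norm_num) h
    · intro u v huv
      have key : ∀ (u : Fin a → Bool) (j : Fin a), (∑ i, if u i = true then (Pi.single i 1 : Fin a → ZMod 2) else 0) j =
          if u j = true then 1 else 0 := by
        intro u j
        rw [Finset.sum_apply, Finset.sum_eq_single j]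
        · by_cases h : u j = true
          · rw [if_pos h, if_pos h, Pi.single_eq_same]
          · rw [if_neg h, if_neg h]
            rfl
        · intro i _ hij
          by_cases h : u i = true
          · rw [if_pos h, Pi.single_eq_of_ne (Ne.symm hij)]
          · rw [if_neg h]
            rfl
        · intro h
          exact absurd (mem_univ j) h
      have e : u = v := by
        funext j
        have h1 := congrFun huv j
        rw [key, key] at h1
        cases hu : u j <;> cases hv : v j <;> rw [hu, hv] at h1 <;> simp at h1 ⊢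
      rw [e]
  · haveI : NeZero (2 ^ l) := ⟨by positivity⟩
    refine ⟨ZMod (2 ^ l), inferInstance, inferInstance, fun _ => 1, by rw [ZMod.card], ?_⟩
    intro u v huv
    apply hs
    have key : ∀ u : Fin a → Bool, (∑ i, if u i = true then (1 : ZMod (2 ^ l)) else 0) =
        ((univ.filter (fun i => u i = true)).card : ZMod (2 ^ l)) := by
      intro u
      rw [card_filter]
      push_cast
      rfl
    rw [key, key, ZMod.natCast_eq_natCast_iff', Nat.mod_eq_of_lt, Nat.mod_eq_of_lt] at huv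
    · exact huv
    · refine lt_of_le_of_lt (card_filter_le _ _) ?_
      rw [card_univ, Fintype.card_fin]
      exact h
    · refine lt_of_le_of_lt (card_filter_le _ _) ?_
      rw [card_univ, Fintype.card_fin]
      exact h

end Pool.Agent.W2helper94.SH
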